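import Mathlib

/-!
Project HO (helper19): automorphism groups of the algebras of Hermitian and skew-Hermitian octonion
matrices. Definitions.
-/

set_option autoImplicit false

namespace Pool.Agent.Q19.HO

open Matrix

/-- The split octonion algebra over `K` (vector matrices of Zorn). The coordinates `0, 1` are the
diagonal entries `a, b`, the coordinates `2, 3, 4` are the vector `u` and the coordinates
`5, 6, 7` the vector `v`. -/
def Oct (K : Type) : Type := Fin 8 → K

variable {K : Type} [Field K]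

instance : AddCommGroup (Oct K) := inferInstanceAs (AddCommGroup (Fin 8 → K))
instance : Module K (Oct K) := inferInstanceAs (Module K (Fin 8 → K))
instance : Module.Finite K (Oct K) := inferInstanceAs (Module.Finite K (Fin 8 → K))

/-- The product `(a,b,u,v)(a',b',u',v') =
(aa' + u·v', bb' + v·u', au' + b'u - v×v', a'v + bv' + u×u')`. -/
def Oct.mul (x y : Oct K) : Oct K := ![
  x 0 * y 0 + (x 2 * y 5 + x 3 * y 6 + x 4 * y 7),
  x 1 * y 1 + (x 5 * y 2 + x 6 * y 3 + x 7 * y 4),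
  x 0 * y 2 + y 1 * x 2 - (x 6 * y 7 - x 7 * y 6),
  x 0 * y 3 + y 1 * x 3 - (x 7 * y 5 - x 5 * y 7),
  x 0 * y 4 + y 1 * x 4 - (x 5 * y 6 - x 6 * y 5),
  y 0 * x 5 + x 1 * y 5 + (x 3 * y 4 - x 4 * y 3),
  y 0 * x 6 + x 1 * y 6 + (x 4 * y 2 - x 2 * y 4),
  y 0 * x 7 + x 1 * y 7 + (x 2 * y 3 - x 3 * y 2)]

instance : Mul (Oct K) := ⟨Oct.mul⟩

/-- The unit `(1,1,0,0)`. -/
instance : One (Oct K) := ⟨(![1, 1, 0, 0, 0, 0, 0, 0] : Fin 8 → K)⟩

/-- The standard conjugation `(a,b,u,v) ↦ (b,a,-u,-v)`. -/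
instance : Star (Oct K) := ⟨fun x => (![x 1, x 0, -x 2, -x 3, -x 4, -x 5, -x 6, -x 7] : Fin 8 → K)⟩

/-- The norm `ab - u·v`. -/
def Oct.norm (x : Oct K) : K := x 0 * x 1 - (x 2 * x 5 + x 3 * x 6 + x 4 * x 7)

lemma oct_ext {x y : Oct K} (h : ∀ i, x i = y i) : x = y := funext h

lemma add_ap (x y : Oct K) (i : Fin 8) : (x + y) i = x i + y i := rfl
lemma sub_ap (x y : Oct K) (i : Fin 8) : (x - y) i = x i - y i := rfl
lemma neg_ap (x : Oct K) (i : Fin 8) : (-x) i = -x i := rfl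
lemma smul_ap (r : K) (x : Oct K) (i : Fin 8) : (r • x) i = r * x i := rfl
lemma zero_ap (i : Fin 8) : (0 : Oct K) i = 0 := rfl

lemma mul0 (x y : Oct K) : (x * y) 0 = x 0 * y 0 + (x 2 * y 5 + x 3 * y 6 + x 4 * y 7) := rfl
lemma mul1 (x y : Oct K) : (x * y) 1 = x 1 * y 1 + (x 5 * y 2 + x 6 * y 3 + x 7 * y 4) := rfl
lemma mul2 (x y : Oct K) : (x * y) 2 = x 0 * y 2 + y 1 * x 2 - (x 6 * y 7 - x 7 * y 6) := rfl
lemma mul3 (x y : Oct K) : (x * y) 3 = x 0 * y 3 + y 1 * x 3 - (x 7 * y 5 - x 5 * y 7) := rfl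
lemma mul4 (x y : Oct K) : (x * y) 4 = x 0 * y 4 + y 1 * x 4 - (x 5 * y 6 - x 6 * y 5) := rfl
lemma mul5 (x y : Oct K) : (x * y) 5 = y 0 * x 5 + x 1 * y 5 + (x 3 * y 4 - x 4 * y 3) := rfl
lemma mul6 (x y : Oct K) : (x * y) 6 = y 0 * x 6 + x 1 * y 6 + (x 4 * y 2 - x 2 * y 4) := rfl
lemma mul7 (x y : Oct K) : (x * y) 7 = y 0 * x 7 + x 1 * y 7 + (x 2 * y 3 - x 3 * y 2) := rfl

lemma one0 : (1 : Oct K) 0 = 1 := rfl
lemma one1 : (1 : Oct K) 1 = 1 := rfl
lemma one2 : (1 : Oct K) 2 = 0 := rfl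
lemma one3 : (1 : Oct K) 3 = 0 := rfl
lemma one4 : (1 : Oct K) 4 = 0 := rfl
lemma one5 : (1 : Oct K) 5 = 0 := rfl
lemma one6 : (1 : Oct K) 6 = 0 := rfl
lemma one7 : (1 : Oct K) 7 = 0 := rfl

lemma star0 (x : Oct K) : (star x) 0 = x 1 := rfl
lemma star1 (x : Oct K) : (star x) 1 = x 0 := rfl
lemma star2 (x : Oct K) : (star x) 2 = -x 2 := rfl
lemma star3 (x : Oct K) : (star x) 3 = -x 3 := rfl
lemma star4 (x : Oct K) : (star x) 4 = -x 4 := rfl
lemma star5 (x : Oct K) : (star x) 5 = -x 5 := rfl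
lemma star6 (x : Oct K) : (star x) 6 = -x 6 := rfl
lemma star7 (x : Oct K) : (star x) 7 = -x 7 := rfl

lemma aux_left_distrib (x y z : Oct K) : x * (y + z) = x * y + x * z := oct_ext fun i => by
  fin_cases i <;> simp [mul0, mul1, mul2, mul3, mul4, mul5, mul6, mul7, add_ap] <;> ring

lemma aux_right_distrib (x y z : Oct K) : (x + y) * z = x * z + y * z := oct_ext fun i => by
  fin_cases i <;> simp [mul0, mul1, mul2, mul3, mul4, mul5, mul6, mul7, add_ap] <;> ring

lemma aux_zero_mul (x : Oct K) : 0 * x = 0 := oct_ext fun i => by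
  fin_cases i <;> simp [mul0, mul1, mul2, mul3, mul4, mul5, mul6, mul7, zero_ap]

lemma aux_mul_zero (x : Oct K) : x * 0 = 0 := oct_ext fun i => by
  fin_cases i <;> simp [mul0, mul1, mul2, mul3, mul4, mul5, mul6, mul7, zero_ap]

lemma aux_one_mul (x : Oct K) : 1 * x = x := oct_ext fun i => by
  fin_cases i <;> simp [mul0, mul1, mul2, mul3, mul4, mul5, mul6, mul7, one0, one1, one2,
    one3, one4, one5, one6, one7]

lemma aux_mul_one (x : Oct K) : x * 1 = x := oct_ext fun i => by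
  fin_cases i <;> simp [mul0, mul1, mul2, mul3, mul4, mul5, mul6, mul7, one0, one1, one2,
    one3, one4, one5, one6, one7]

instance : NonAssocRing (Oct K) :=
  { (inferInstance : AddCommGroup (Oct K)), (inferInstance : Mul (Oct K)),
    (inferInstance : One (Oct K)) with
    left_distrib := aux_left_distrib
    right_distrib := aux_right_distrib
    zero_mul := aux_zero_mul
    mul_zero := aux_mul_zero
    one_mul := aux_one_mul
    mul_one := aux_mul_one }

lemma aux_star_star (x : Oct K) : star (star x) = x := oct_ext fun i => by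
  fin_cases i <;> simp [star0, star1, star2, star3, star4, star5, star6, star7]

lemma aux_star_mul (x y : Oct K) : star (x * y) = star y * star x := oct_ext fun i => by
  fin_cases i <;> simp [star0, star1, star2, star3, star4, star5, star6, star7, mul0, mul1,
    mul2, mul3, mul4, mul5, mul6, mul7] <;> ring

lemma aux_star_add (x y : Oct K) : star (x + y) = star x + star y := oct_ext fun i => by
  fin_cases i <;> simp [star0, star1, star2, star3, star4, star5, star6, star7, add_ap] <;>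
    ring

instance : StarRing (Oct K) :=
  { (inferInstance : Star (Oct K)) with
    star_involutive := aux_star_star
    star_mul := aux_star_mul
    star_add := aux_star_add }

lemma smul_mul' (r : K) (x y : Oct K) : (r • x) * y = r • (x * y) := oct_ext fun i => by
  fin_cases i <;> simp [mul0, mul1, mul2, mul3, mul4, mul5, mul6, mul7, smul_ap] <;> ring

lemma mul_smul' (r : K) (x y : Oct K) : x * (r • y) = r • (x * y) := oct_ext fun i => by
  fin_cases i <;> simp [mul0, mul1, mul2, mul3, mul4, mul5, mul6, mul7, smul_ap] <;> ring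

instance : IsScalarTower K (Oct K) (Oct K) := ⟨fun r x y => smul_mul' r x y⟩
instance : SMulCommClass K (Oct K) (Oct K) := ⟨fun r x y => (mul_smul' r x y).symm⟩

lemma star_smul' (r : K) (x : Oct K) : star (r • x) = r • star x := oct_ext fun i => by
  fin_cases i <;> simp [star0, star1, star2, star3, star4, star5, star6, star7, smul_ap]

/-- left alternative law -/
lemma left_alt (x y : Oct K) : x * (x * y) = (x * x) * y := oct_ext fun i => by
  fin_cases i <;> simp [mul0, mul1, mul2, mul3, mul4, mul5, mul6, mul7] <;> ring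

/-- right alternative law -/
lemma right_alt (x y : Oct K) : (y * x) * x = y * (x * x) := oct_ext fun i => by
  fin_cases i <;> simp [mul0, mul1, mul2, mul3, mul4, mul5, mul6, mul7] <;> ring

/-- `x x̄ = N(x) 1` -/
lemma mul_star' (x : Oct K) : x * star x = Oct.norm x • (1 : Oct K) := oct_ext fun i => by
  fin_cases i <;> simp [mul0, mul1, mul2, mul3, mul4, mul5, mul6, mul7, smul_ap, one0, one1, one2,
    one3, one4, one5, one6, one7, star0, star1, star2, star3, star4, star5, star6, star7,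
    Oct.norm] <;> ring

lemma star_mul'' (x : Oct K) : star x * x = Oct.norm x • (1 : Oct K) := oct_ext fun i => by
  fin_cases i <;> simp [mul0, mul1, mul2, mul3, mul4, mul5, mul6, mul7, smul_ap, one0, one1, one2,
    one3, one4, one5, one6, one7, star0, star1, star2, star3, star4, star5, star6, star7,
    Oct.norm] <;> ring

/-- `n × n` matrices over the octonions -/
abbrev Mat (n : ℕ) (K : Type) : Type := Matrix (Fin n) (Fin n) (Oct K)

/-- a matrix over `K` as a matrix over the octonions -/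
def re {n : ℕ} (g : Matrix (Fin n) (Fin n) K) : Mat n K := fun i j => g i j • (1 : Oct K)

lemma aux_symP_add {n : ℕ} {X Y : Mat n K} (hX : ∀ i j, star (X j i) = X i j)
    (hY : ∀ i j, star (Y j i) = Y i j) (i j : Fin n) : star ((X + Y) j i) = (X + Y) i j := by
  show star (X j i + Y j i) = X i j + Y i j
  rw [star_add, hX, hY]

lemma aux_symP_zero {n : ℕ} (i j : Fin n) : star ((0 : Mat n K) j i) = (0 : Mat n K) i j :=
  star_zero _

lemma aux_symP_smul {n : ℕ} (r : K) {X : Mat n K} (hX : ∀ i j, star (X j i) = X i j)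
    (i j : Fin n) : star ((r • X) j i) = (r • X) i j := by
  show star (r • X j i) = r • X i j
  rw [star_smul', hX]

/-- Hermitian matrices `Sym⁺` -/
def SymP (n : ℕ) (K : Type) [Field K] : Submodule K (Mat n K) where
  carrier := {X | ∀ i j, star (X j i) = X i j}
  add_mem' := fun {_ _} hX hY => aux_symP_add hX hY
  zero_mem' := aux_symP_zero
  smul_mem' := fun r _ hX => aux_symP_smul r hX

lemma aux_symM_add {n : ℕ} {X Y : Mat n K} (hX : ∀ i j, star (X j i) = -X i j)
    (hY : ∀ i j, star (Y j i) = -Y i j) (i j : Fin n) : star ((X + Y) j i) = -(X + Y) i j := by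
  show star (X j i + Y j i) = -(X i j + Y i j)
  rw [star_add, hX, hY, neg_add]

lemma aux_symM_zero {n : ℕ} (i j : Fin n) : star ((0 : Mat n K) j i) = -(0 : Mat n K) i j := by
  show star (0 : Oct K) = -0
  rw [star_zero, neg_zero]

lemma aux_symM_smul {n : ℕ} (r : K) {X : Mat n K} (hX : ∀ i j, star (X j i) = -X i j)
    (i j : Fin n) : star ((r • X) j i) = -(r • X) i j := by
  show star (r • X j i) = -(r • X i j)
  rw [star_smul', hX, smul_neg]

/-- skew-Hermitian matrices `Sym⁻` -/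
def SymM (n : ℕ) (K : Type) [Field K] : Submodule K (Mat n K) where
  carrier := {X | ∀ i j, star (X j i) = -X i j}
  add_mem' := fun {_ _} hX hY => aux_symM_add hX hY
  zero_mem' := aux_symM_zero
  smul_mem' := fun r _ hX => aux_symM_smul r hX

/-- the product `X ∘ Y = (XY + YX)/2` -/
def jp {n : ℕ} (X Y : Mat n K) : Mat n K := (2 : K)⁻¹ • (X * Y + Y * X)

/-- the commutator `[X, Y] = XY - YX` -/
def br {n : ℕ} (X Y : Mat n K) : Mat n K := X * Y - Y * X

lemma aux_autO_mul {s t : Oct K ≃ₗ[K] Oct K} (hs : ∀ x y, s (x * y) = s x * s y)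
    (ht : ∀ x y, t (x * y) = t x * t y) (x y : Oct K) : (s * t) (x * y) = (s * t) x * (s * t) y := by
  show s (t (x * y)) = s (t x) * s (t y)
  rw [ht, hs]

lemma aux_autO_inv {t : Oct K ≃ₗ[K] Oct K} (ht : ∀ x y, t (x * y) = t x * t y) (x y : Oct K) :
    t⁻¹ (x * y) = t⁻¹ x * t⁻¹ y := by
  show t.symm (x * y) = t.symm x * t.symm y
  apply t.injective
  rw [ht, t.apply_symm_apply, t.apply_symm_apply, t.apply_symm_apply]

/-- the group of the automorphisms of the octonions, `G₂` -/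
def AutO (K : Type) [Field K] : Subgroup (Oct K ≃ₗ[K] Oct K) where
  carrier := {t | ∀ x y, t (x * y) = t x * t y}
  mul_mem' := fun {_ _} hs ht => aux_autO_mul hs ht
  one_mem' := fun _ _ => rfl
  inv_mem' := fun {_} ht => aux_autO_inv ht

lemma aux_autP_inv {n : ℕ} {t : SymP n K ≃ₗ[K] SymP n K}
    (ht : ∀ X Y Z : SymP n K, jp (X : Mat n K) Y = Z → jp (t X : Mat n K) (t Y) = t Z)
    (X Y Z : SymP n K) (h : jp (X : Mat n K) Y = Z) :
    jp (t⁻¹ X : Mat n K) (t⁻¹ Y : SymP n K) = (t⁻¹ Z : SymP n K) := by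
  show jp (t.symm X : Mat n K) (t.symm Y) = t.symm Z
  have hmem : jp (t.symm X : Mat n K) (t.symm Y) ∈ SymP n K := by
    intro i j
    have hX := (t.symm X).2
    have hY := (t.symm Y).2
    simp only [jp, Matrix.smul_apply, Matrix.add_apply, Matrix.mul_apply, star_smul', star_add,
      star_sum, star_mul]
    rw [add_comm]
    congr 2
    · exact Finset.sum_congr rfl fun k _ => by rw [hX, hY]
    · exact Finset.sum_congr rfl fun k _ => by rw [hX, hY]
  have h1 := ht (t.symm X) (t.symm Y) ⟨_, hmem⟩ rfl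
  rw [t.apply_symm_apply, t.apply_symm_apply, h] at h1
  have h2 : Z = t ⟨_, hmem⟩ := Subtype.ext h1
  rw [h2, t.symm_apply_apply]

/-- the automorphisms of `(Sym⁺, ∘)` -/
def AutP (n : ℕ) (K : Type) [Field K] : Subgroup (SymP n K ≃ₗ[K] SymP n K) where
  carrier := {f | ∀ X Y Z : SymP n K, jp (X : Mat n K) Y = Z → jp (f X : Mat n K) (f Y) = f Z}
  mul_mem' := fun {_ _} hs ht _ _ _ h => hs _ _ _ (ht _ _ _ h)
  one_mem' := fun _ _ _ h => h
  inv_mem' := fun {_} ht => aux_autP_inv ht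

lemma aux_autM_inv {n : ℕ} {t : SymM n K ≃ₗ[K] SymM n K}
    (ht : ∀ X Y Z : SymM n K, br (X : Mat n K) Y = Z → br (t X : Mat n K) (t Y) = t Z)
    (X Y Z : SymM n K) (h : br (X : Mat n K) Y = Z) :
    br (t⁻¹ X : Mat n K) (t⁻¹ Y : SymM n K) = (t⁻¹ Z : SymM n K) := by
  show br (t.symm X : Mat n K) (t.symm Y) = t.symm Z
  have hmem : br (t.symm X : Mat n K) (t.symm Y) ∈ SymM n K := by
    intro i j
    have hX := (t.symm X).2
    have hY := (t.symm Y).2
    simp only [br, Matrix.sub_apply, Matrix.mul_apply, star_sub, star_sum, star_mul]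
    rw [neg_sub]
    congr 1
    · exact Finset.sum_congr rfl fun k _ => by rw [hX, hY, neg_mul_neg]
    · exact Finset.sum_congr rfl fun k _ => by rw [hX, hY, neg_mul_neg]
  have h1 := ht (t.symm X) (t.symm Y) ⟨_, hmem⟩ rfl
  rw [t.apply_symm_apply, t.apply_symm_apply, h] at h1
  have h2 : Z = t ⟨_, hmem⟩ := Subtype.ext h1
  rw [h2, t.symm_apply_apply]

/-- the automorphisms of `(Sym⁻, [,])` -/
def AutM (n : ℕ) (K : Type) [Field K] : Subgroup (SymM n K ≃ₗ[K] SymM n K) where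
  carrier := {f | ∀ X Y Z : SymM n K, br (X : Mat n K) Y = Z → br (f X : Mat n K) (f Y) = f Z}
  mul_mem' := fun {_ _} hs ht _ _ _ h => hs _ _ _ (ht _ _ _ h)
  one_mem' := fun _ _ _ h => h
  inv_mem' := fun {_} ht => aux_autM_inv ht

lemma aux_go_mul {n : ℕ} {g h : (Matrix (Fin n) (Fin n) K)ˣ}
    (hg : ∃ r : K, (g : Matrix (Fin n) (Fin n) K)ᵀ * g = r • 1)
    (hh : ∃ r : K, (h : Matrix (Fin n) (Fin n) K)ᵀ * h = r • 1) :
    ∃ r : K, ((g * h : (Matrix (Fin n) (Fin n) K)ˣ) : Matrix (Fin n) (Fin n) K)ᵀ *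
      ((g * h : (Matrix (Fin n) (Fin n) K)ˣ) : Matrix (Fin n) (Fin n) K) = r • 1 := by
  obtain ⟨r, hr⟩ := hg
  obtain ⟨s, hs⟩ := hh
  refine ⟨r * s, ?_⟩
  show ((g : Matrix (Fin n) (Fin n) K) * (h : Matrix (Fin n) (Fin n) K))ᵀ *
    ((g : Matrix (Fin n) (Fin n) K) * (h : Matrix (Fin n) (Fin n) K)) = (r * s) • 1
  rw [Matrix.transpose_mul]
  calc (h : Matrix (Fin n) (Fin n) K)ᵀ * (g : Matrix (Fin n) (Fin n) K)ᵀ *
        ((g : Matrix (Fin n) (Fin n) K) * (h : Matrix (Fin n) (Fin n) K))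
      = (h : Matrix (Fin n) (Fin n) K)ᵀ * ((g : Matrix (Fin n) (Fin n) K)ᵀ *
        (g : Matrix (Fin n) (Fin n) K)) * (h : Matrix (Fin n) (Fin n) K) := by
        simp only [Matrix.mul_assoc]
    _ = (r * s) • 1 := by
        rw [hr, Matrix.mul_smul, Matrix.mul_one, Matrix.smul_mul, hs, smul_smul]

lemma aux_go_one {n : ℕ} : ∃ r : K,
    ((1 : (Matrix (Fin n) (Fin n) K)ˣ) : Matrix (Fin n) (Fin n) K)ᵀ *
      ((1 : (Matrix (Fin n) (Fin n) K)ˣ) : Matrix (Fin n) (Fin n) K) = r • 1 := ⟨1, by simp⟩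

lemma aux_go_inv {n : ℕ} {g : (Matrix (Fin n) (Fin n) K)ˣ}
    (hg : ∃ r : K, (g : Matrix (Fin n) (Fin n) K)ᵀ * g = r • 1) :
    ∃ r : K, ((g⁻¹ : (Matrix (Fin n) (Fin n) K)ˣ) : Matrix (Fin n) (Fin n) K)ᵀ *
      ((g⁻¹ : (Matrix (Fin n) (Fin n) K)ˣ) : Matrix (Fin n) (Fin n) K) = r • 1 := by
  obtain ⟨r, hr⟩ := hg
  refine ⟨r⁻¹, ?_⟩
  by_cases hn : r = 0
  · -- then the matrices are zero matrices
    have h0 : (1 : Matrix (Fin n) (Fin n) K) = 0 := by
      have h1 : (g : Matrix (Fin n) (Fin n) K)ᵀ = 0 := by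
        have := congrArg (fun M => M * (↑g⁻¹ : Matrix (Fin n) (Fin n) K)) hr
        simpa [Matrix.mul_assoc, hn] using this
      have h2 : (g : Matrix (Fin n) (Fin n) K) = 0 := by
        rw [← Matrix.transpose_transpose (g : Matrix (Fin n) (Fin n) K), h1,
          Matrix.transpose_zero]
      have h3 : (g : Matrix (Fin n) (Fin n) K) * (↑g⁻¹ : Matrix (Fin n) (Fin n) K) = 1 :=
        Units.mul_inv g
      rw [h2, Matrix.zero_mul] at h3
      exact h3.symm
    have hall : ∀ M N : Matrix (Fin n) (Fin n) K, M = N := fun M N => by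
      rw [← Matrix.mul_one M, ← Matrix.mul_one N, h0, Matrix.mul_zero, Matrix.mul_zero]
    exact hall _ _
  · have h1 : (↑g⁻¹ : Matrix (Fin n) (Fin n) K) = r⁻¹ • (g : Matrix (Fin n) (Fin n) K)ᵀ := by
      have : r⁻¹ • (g : Matrix (Fin n) (Fin n) K)ᵀ * (g : Matrix (Fin n) (Fin n) K) = 1 := by
        rw [Matrix.smul_mul, hr, smul_smul, inv_mul_cancel₀ hn, one_smul]
      calc (↑g⁻¹ : Matrix (Fin n) (Fin n) K)
          = (r⁻¹ • (g : Matrix (Fin n) (Fin n) K)ᵀ * (g : Matrix (Fin n) (Fin n) K)) *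
              (↑g⁻¹ : Matrix (Fin n) (Fin n) K) := by rw [this, Matrix.one_mul]
        _ = r⁻¹ • (g : Matrix (Fin n) (Fin n) K)ᵀ := by
            rw [Matrix.mul_assoc, Units.mul_inv, Matrix.mul_one]
    have h2 : (g : Matrix (Fin n) (Fin n) K) * (r⁻¹ • (g : Matrix (Fin n) (Fin n) K)ᵀ) = 1 := by
      rw [← h1]
      exact Units.mul_inv g
    rw [h1, Matrix.transpose_smul, Matrix.transpose_transpose, Matrix.smul_mul, h2]

/-- the group of the similitudes of the form `∑ xᵢ²`: the invertible `g` with `gᵀ g` scalar -/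
def GO (n : ℕ) (K : Type) [Field K] : Subgroup (Matrix (Fin n) (Fin n) K)ˣ where
  carrier := {g | ∃ r : K, (g : Matrix (Fin n) (Fin n) K)ᵀ * g = r • 1}
  mul_mem' := fun {_ _} hg hh => aux_go_mul hg hh
  one_mem' := aux_go_one
  inv_mem' := fun {_} hg => aux_go_inv hg

/-- `X ↦ g τ(X) g⁻¹`, `τ` being applied to each entry -/
def act {n : ℕ} (t : Oct K ≃ₗ[K] Oct K) (g : (Matrix (Fin n) (Fin n) K)ˣ) (X : Mat n K) :
    Mat n K :=
  re (g : Matrix (Fin n) (Fin n) K) * X.map t * re (↑g⁻¹ : Matrix (Fin n) (Fin n) K)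

end Pool.Agent.Q19.HO
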