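import Pool.Agent.Q19.HO.Stm

/-!
Project HO: job TST.
-/

set_option autoImplicit false

namespace Pool.Agent.Q19.HO.TST

open Pool.Agent.Q19.HO

variable {K : Type} [Field K]

lemma star_eq (x : Oct K) : star x = (x 0 + x 1) • (1 : Oct K) - x := oct_ext fun i => by
  fin_cases i <;> simp [smul_ap, one0, one1, one2,
    one3, one4, one5, one6, one7, star0, star1, star2, star3, star4, star5, star6, star7, sub_ap]

lemma sq_eq (x : Oct K) : x * x = (x 0 + x 1) • x - Oct.norm x • (1 : Oct K) := oct_ext fun i => by
  fin_cases i <;> simp [mul0, mul1, mul2, mul3, mul4, mul5, mul6, mul7, smul_ap, one0, one1, one2,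
    one3, one4, one5, one6, one7, sub_ap, Oct.norm] <;> ring

lemma pol_eq (x y : Oct K) : x * y + y * x = (x 0 + x 1) • y + (y 0 + y 1) • x -
    (Oct.norm (x + y) - Oct.norm x - Oct.norm y) • (1 : Oct K) := oct_ext fun i => by
  fin_cases i <;> simp [mul0, mul1, mul2, mul3, mul4, mul5, mul6, mul7, smul_ap, one0, one1, one2,
    one3, one4, one5, one6, one7, sub_ap, add_ap, Oct.norm] <;> ring

theorem t : S_TST := by
  intro K _ h2
  refine ⟨fun t ht => ?_, fun d hd => ?_⟩
  · have ht' : ∀ x y, t (x * y) = t x * t y := ht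
    have h1 : t 1 = 1 := by
      have := ht' 1 (t.symm 1)
      rw [one_mul, t.apply_symm_apply, mul_one] at this
      exact this.symm
    refine ⟨h1, fun x => ?_⟩
    have htr : x 0 + x 1 = (t x) 0 + (t x) 1 := by
      by_contra hne
      have h3 := ht' x x
      rw [sq_eq x, sq_eq (t x), map_sub, map_smul, map_smul, h1] at h3
      have h4 : ((x 0 + x 1) - ((t x) 0 + (t x) 1)) • t x =
          (Oct.norm x - Oct.norm (t x)) • (1 : Oct K) := by
        rw [sub_smul, sub_smul]
        rw [sub_eq_sub_iff_add_eq_add] at h3 ⊢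
        rw [h3]
        abel
      have h5 : t x = (((x 0 + x 1) - ((t x) 0 + (t x) 1))⁻¹ * (Oct.norm x - Oct.norm (t x))) •
          (1 : Oct K) := by
        rw [mul_smul, ← h4, smul_smul, inv_mul_cancel₀ (sub_ne_zero.2 hne), one_smul]
      generalize (((x 0 + x 1) - ((t x) 0 + (t x) 1))⁻¹ * (Oct.norm x - Oct.norm (t x))) = r at h5
      have h6 : x = r • (1 : Oct K) := by
        apply t.injective
        rw [h5, map_smul, h1]
      apply hne
      rw [h5]
      conv_lhs => rw [h6]
    rw [star_eq, star_eq, map_sub, map_smul, h1, htr]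
  · have hd' : ∀ x y, d (x * y) = d x * y + x * d y := hd
    have h1 : d 1 = 0 := by
      have := hd' 1 1
      rw [mul_one, mul_one, one_mul] at this
      simpa using this
    refine ⟨h1, fun x => ?_⟩
    have htr : (d x) 0 + (d x) 1 = 0 := by
      by_contra hne
      have h3 := hd' x x
      rw [sq_eq x, map_sub, map_smul, map_smul, h1, add_comm (d x * x), pol_eq x (d x)] at h3
      have h4 : ((d x) 0 + (d x) 1) • x =
          (Oct.norm (x + d x) - Oct.norm x - Oct.norm (d x)) • (1 : Oct K) := by
        rw [smul_zero, sub_zero] at h3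
        have : (x 0 + x 1) • d x + 0 = (x 0 + x 1) • d x + (((d x) 0 + (d x) 1) • x -
          (Oct.norm (x + d x) - Oct.norm x - Oct.norm (d x)) • (1 : Oct K)) := by
          rw [add_zero, ← add_sub_assoc]
          exact h3
        have := add_left_cancel this
        exact (sub_eq_zero.1 this.symm)
      have h5 : x = (((d x) 0 + (d x) 1)⁻¹ *
          (Oct.norm (x + d x) - Oct.norm x - Oct.norm (d x))) • (1 : Oct K) := by
        rw [mul_smul, ← h4, smul_smul, inv_mul_cancel₀ hne, one_smul]
      apply hne
      rw [h5, map_smul, h1, smul_zero]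
      simp [zero_ap]
    rw [star_eq, star_eq, map_sub, map_smul, h1, htr]
    simp

end Pool.Agent.Q19.HO.TST
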