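import Pool.Agent.Q19.HO.Main0
import Pool.Agent.Q19.HO.TST
import Pool.Agent.Q109.HO.FIXP
import Pool.Agent.Q130.HO.HOM
import Pool.Agent.Q76.HO.KER
import Pool.Agent.Q40.HO.JORD
import Pool.Agent.Q123.HO.SO
import Pool.Agent.Q187.HO.STAB
import Pool.Agent.Q222.HO.NUC
import Pool.Agent.Q13.HO.MAL
import Pool.Agent.Q160.HO.SCH
import Pool.Agent.Q119.HO.ZO
import Pool.Agent.Q176.HO.DOP
import Pool.Agent.Q119.HO.MOD
import Pool.Agent.Q164.HO.REAL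
import Pool.Agent.Q221.HO.DER1
import Pool.Agent.Q221.HO.DER3
import Pool.Agent.Q18.HO.SURP
import Pool.Agent.Q103.HO.NUCM
import Pool.Agent.Q160.HO.CENM
import Pool.Agent.Q139.HO.FIXM
import Pool.Agent.Q65.HO.ODD
import Pool.Agent.Q256.HO.ZP
import Pool.Agent.Q222.HO.ONE
import Pool.Agent.Q62.HO.TWO

/-!
Project HO: the lemmas put together.
-/

set_option autoImplicit false

namespace Pool.Agent.Q19.HO

open Matrix

theorem main (K : Type) [Field K] (h2 : (2 : K) ≠ 0) (h3 : (3 : K) ≠ 0) :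
    (∀ n, 4 ≤ n → ∃ Φ : (AutO K × GO n K) →* AutP n K,
      (∀ (t : AutO K) (g : GO n K) (X : SymP n K),
        (((Φ (t, g) : AutP n K) : SymP n K ≃ₗ[K] SymP n K) X : Mat n K) =
          act (t : Oct K ≃ₗ[K] Oct K) (g : (Matrix (Fin n) (Fin n) K)ˣ) X) ∧
      Function.Surjective Φ ∧
      ∀ (t : AutO K) (g : GO n K), Φ (t, g) = 1 ↔ t = 1 ∧ ∃ r : K,
        ((g : (Matrix (Fin n) (Fin n) K)ˣ) : Matrix (Fin n) (Fin n) K) = r • 1) ∧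
    (∀ n, 1 ≤ n → ∃ Φ : (AutO K × GO n K) →* AutM n K,
      (∀ (t : AutO K) (g : GO n K) (X : SymM n K),
        (((Φ (t, g) : AutM n K) : SymM n K ≃ₗ[K] SymM n K) X : Mat n K) =
          act (t : Oct K ≃ₗ[K] Oct K) (g : (Matrix (Fin n) (Fin n) K)ˣ) X) ∧
      Function.Surjective Φ ∧
      ∀ (t : AutO K) (g : GO n K), Φ (t, g) = 1 ↔ t = 1 ∧ ∃ r : K,
        ((g : (Matrix (Fin n) (Fin n) K)ˣ) : Matrix (Fin n) (Fin n) K) = r • 1) ∧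
    (∀ n, 4 ≤ n → (Nonempty (AutP n K ≃* AutO K × SO n K) ↔ Odd n)) ∧
    (∀ n, 1 ≤ n → (Nonempty (AutM n K ≃* AutO K × SO n K) ↔ Odd n)) ∧
    (∀ f ∈ AutP 1 K, f = 1) ∧ IsEmpty (AutP 1 K ≃* AutO K × SO 1 K) ∧
    (∀ f : SymP 2 K ≃ₗ[K] SymP 2 K, f ∈ AutP 2 K ↔
      (∀ X : SymP 2 K, (X : Mat 2 K) = 1 → f X = X) ∧
        ∀ X : SymP 2 K, det2 (f X : Mat 2 K) = det2 (X : Mat 2 K)) ∧
    IsEmpty (AutP 2 K ≃* AutO K × SO 2 K) := by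
  have tst := Q19.HO.TST.t
  have fixp := Q109.HO.FIXP.t
  have hom := Q130.HO.HOM.t tst
  have ker := Q76.HO.KER.t_KER tst
  have jord := Q40.HO.JORD.t
  have der1 := Q221.HO.DER1.t Q222.HO.NUC.t
  have der3 := Q221.HO.DER3.t Q222.HO.NUC.t
  have dop := Q176.HO.DOP.t tst
  have mod := Q119.HO.MOD.t Q187.HO.STAB.t Q123.HO.SO.t
  have real := Q164.HO.REAL.t dop der1 der3 mod
  have surp := Q18.HO.SURP.t real jord fixp hom
  have surm := Q19.HO.SURM.t Q103.HO.NUCM.t Q160.HO.CENM.t Q13.HO.MAL.t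
    (Q139.HO.FIXM.t Q160.HO.SCH.t jord) hom
  exact main0 hom ker surp surm Q222.HO.ONE.t Q119.HO.ZO.t Q256.HO.ZP.t Q65.HO.ODD.t Q62.HO.TWO.t K h2 h3

end Pool.Agent.Q19.HO
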