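import Pool.Agent.Q19.HO.Iso

/-!
Project HO: the definitions for the final statement. Automorphism groups of algebras in general, the
algebras of Hermitian and skew-Hermitian matrices as types of their own.
-/

set_option autoImplicit false

namespace Pool.Agent.Q19.HO

open Matrix

section
variable (K : Type) {V : Type} [Field K] [AddCommGroup V] [Module K V] (μ : V → V → V)

/-- `f` respects the product `μ` -/
def IsHom (f : V ≃ₗ[K] V) : Prop := ∀ x y, f (μ x y) = μ (f x) (f y)

variable {K μ}

lemma IsHom.mul {f g : V ≃ₗ[K] V} (hf : IsHom K μ f) (hg : IsHom K μ g) : IsHom K μ (f * g) :=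
  fun x y => by
    show f (g (μ x y)) = μ (f (g x)) (f (g y))
    rw [hg, hf]

lemma IsHom.one : IsHom K μ (1 : V ≃ₗ[K] V) := fun _ _ => rfl

lemma IsHom.inv {f : V ≃ₗ[K] V} (hf : IsHom K μ f) : IsHom K μ f⁻¹ := fun x y => by
  show f.symm (μ x y) = μ (f.symm x) (f.symm y)
  apply f.injective
  rw [hf, f.apply_symm_apply, f.apply_symm_apply, f.apply_symm_apply]

variable (K μ)

/-- the subgroup of the automorphisms of the algebra `(V, μ)` over `K` -/
def AutS : Subgroup (V ≃ₗ[K] V) where
  carrier := {f | IsHom K μ f}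
  mul_mem' := IsHom.mul
  one_mem' := IsHom.one
  inv_mem' := IsHom.inv

/-- the group of the automorphisms of the algebra `(V, μ)` over `K` -/
def AutG : Type := AutS K μ

instance : Group (AutG K μ) := Subgroup.toGroup (AutS K μ)

variable {K μ}

/-- an automorphism as a linear map -/
def AutG.lin (f : AutG K μ) : V ≃ₗ[K] V := Subtype.val f

lemma AutG.ext {f g : AutG K μ} (h : f.lin = g.lin) : f = g := Subtype.ext h

end

/-- the space of the Hermitian matrices -/
def HP (n : ℕ) (K : Type) [Field K] : Type := SymP n K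

/-- the space of the skew-Hermitian matrices -/
def HM (n : ℕ) (K : Type) [Field K] : Type := SymM n K

section
variable {n : ℕ} {K : Type} [Field K]

instance instACGHP : AddCommGroup (HP n K) := Submodule.addCommGroup (SymP n K)
instance instModHP : Module K (HP n K) := Submodule.module (SymP n K)
instance instACGHM : AddCommGroup (HM n K) := Submodule.addCommGroup (SymM n K)
instance instModHM : Module K (HM n K) := Submodule.module (SymM n K)

/-- a Hermitian matrix as a matrix -/
def HP.mat (X : HP n K) : Mat n K := Subtype.val X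

/-- a skew-Hermitian matrix as a matrix -/
def HM.mat (X : HM n K) : Mat n K := Subtype.val X

lemma jp_mem (X Y : SymP n K) : jp (X : Mat n K) Y ∈ SymP n K := by
  intro i j
  have hX := X.2
  have hY := Y.2
  simp only [jp, Matrix.smul_apply, Matrix.add_apply, Matrix.mul_apply, star_smul', star_add,
    star_sum, star_mul]
  rw [add_comm]
  congr 2
  · exact Finset.sum_congr rfl fun k _ => by rw [hX, hY]
  · exact Finset.sum_congr rfl fun k _ => by rw [hX, hY]

lemma br_mem (X Y : SymM n K) : br (X : Mat n K) Y ∈ SymM n K := by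
  intro i j
  have hX := X.2
  have hY := Y.2
  simp only [br, Matrix.sub_apply, Matrix.mul_apply, star_sub, star_sum, star_mul]
  rw [neg_sub]
  congr 1
  · exact Finset.sum_congr rfl fun k _ => by rw [hX, hY, neg_mul_neg]
  · exact Finset.sum_congr rfl fun k _ => by rw [hX, hY, neg_mul_neg]

/-- the product `X ∘ Y = (XY + YX)/2` of Hermitian matrices -/
def jordan (X Y : HP n K) : HP n K := Subtype.mk (jp X.mat Y.mat) (jp_mem X Y)

/-- the product `[X, Y] = XY - YX` of skew-Hermitian matrices -/
def lie (X Y : HM n K) : HM n K := Subtype.mk (br X.mat Y.mat) (br_mem X Y)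

end

/-- `G₂`, the automorphism group of the octonions -/
abbrev G2 (K : Type) [Field K] : Type := AutG K (@Oct.mul K _)

/-- the automorphism group of the algebra of the Hermitian `n × n` matrices -/
abbrev AP (n : ℕ) (K : Type) [Field K] : Type := AutG K (@jordan n K _)

/-- the automorphism group of the algebra of the skew-Hermitian `n × n` matrices -/
abbrev AM (n : ℕ) (K : Type) [Field K] : Type := AutG K (@lie n K _)

/-- The automorphisms of the algebra of the Hermitian `n × n` matrices are the maps
`X ↦ g t(X) g⁻¹`, `t` in `G₂`, `g` in `GO(n)`, and the kernel of this action of `G₂ × GO(n)` is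
`1 × K*`. -/
def DescP (n : ℕ) (K : Type) [Field K] : Prop :=
  ∃ Φ : (G2 K × GO n K) →* AP n K,
    (∀ (t : G2 K) (g : GO n K) (X : HP n K),
      ((Φ (t, g)).lin X).mat = act t.lin (g : (Matrix (Fin n) (Fin n) K)ˣ) X.mat) ∧
    Function.Surjective Φ ∧
    ∀ (t : G2 K) (g : GO n K), Φ (t, g) = 1 ↔ t = 1 ∧ ∃ r : K,
      ((g : (Matrix (Fin n) (Fin n) K)ˣ) : Matrix (Fin n) (Fin n) K) = r • 1

/-- The automorphisms of the algebra of the skew-Hermitian `n × n` matrices are the maps
`X ↦ g t(X) g⁻¹`, `t` in `G₂`, `g` in `GO(n)`, and the kernel of this action of `G₂ × GO(n)` is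
`1 × K*`. -/
def DescM (n : ℕ) (K : Type) [Field K] : Prop :=
  ∃ Φ : (G2 K × GO n K) →* AM n K,
    (∀ (t : G2 K) (g : GO n K) (X : HM n K),
      ((Φ (t, g)).lin X).mat = act t.lin (g : (Matrix (Fin n) (Fin n) K)ˣ) X.mat) ∧
    Function.Surjective Φ ∧
    ∀ (t : G2 K) (g : GO n K), Φ (t, g) = 1 ↔ t = 1 ∧ ∃ r : K,
      ((g : (Matrix (Fin n) (Fin n) K)ˣ) : Matrix (Fin n) (Fin n) K) = r • 1

/-- The automorphism group of the algebra of the Hermitian `n × n` matrices is isomorphic, as an
abstract group, to `G₂ × SO(n)`. -/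
def IsoP (n : ℕ) (K : Type) [Field K] : Prop := Nonempty (AP n K ≃* G2 K × SO n K)

/-- The automorphism group of the algebra of the skew-Hermitian `n × n` matrices is isomorphic, as an
abstract group, to `G₂ × SO(n)`. -/
def IsoM (n : ℕ) (K : Type) [Field K] : Prop := Nonempty (AM n K ≃* G2 K × SO n K)

end Pool.Agent.Q19.HO
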