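import Pool.Agent.Q19.HO.Fin
import Pool.Agent.Q19.HO.St

/-!
Project HO: the main theorem in terms of the definitions of `St.lean`.
-/

set_option autoImplicit false

namespace Pool.Agent.Q19.HO

open Matrix

section
variable {n : ℕ} {K : Type} [Field K]

/-- `G₂` -/
def eO (K : Type) [Field K] : G2 K ≃* AutO K where
  toFun f := ⟨f.lin, fun x y => f.2 x y⟩
  invFun f := ⟨f.1, fun x y => f.2 x y⟩
  left_inv _ := rfl
  right_inv _ := rfl
  map_mul' _ _ := rfl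

lemma autP_of {f : SymP n K ≃ₗ[K] SymP n K}
    (hf : ∀ X Y : SymP n K, (f ⟨jp (X : Mat n K) Y, jp_mem X Y⟩ : Mat n K) = jp (f X : Mat n K) (f Y)) :
    f ∈ AutP n K := by
  intro X Y Z h
  rw [← hf X Y]
  congr 2
  exact Subtype.ext h

lemma autM_of {f : SymM n K ≃ₗ[K] SymM n K}
    (hf : ∀ X Y : SymM n K, (f ⟨br (X : Mat n K) Y, br_mem X Y⟩ : Mat n K) = br (f X : Mat n K) (f Y)) :
    f ∈ AutM n K := by
  intro X Y Z h
  rw [← hf X Y]
  congr 2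
  exact Subtype.ext h

/-- comparison of `AP` and `AutP` -/
def eP (n : ℕ) (K : Type) [Field K] : AP n K ≃* AutP n K where
  toFun f := ⟨f.lin, autP_of fun X Y => congrArg Subtype.val (f.2 X Y)⟩
  invFun f := ⟨f.1, fun X Y => Subtype.ext (f.2 X Y ⟨_, jp_mem X Y⟩ rfl).symm⟩
  left_inv _ := rfl
  right_inv _ := rfl
  map_mul' _ _ := rfl

/-- comparison of `AM` and `AutM` -/
def eM (n : ℕ) (K : Type) [Field K] : AM n K ≃* AutM n K where
  toFun f := ⟨f.lin, autM_of fun X Y => congrArg Subtype.val (f.2 X Y)⟩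
  invFun f := ⟨f.1, fun X Y => Subtype.ext (f.2 X Y ⟨_, br_mem X Y⟩ rfl).symm⟩
  left_inv _ := rfl
  right_inv _ := rfl
  map_mul' _ _ := rfl

end

theorem main2 (K : Type) [Field K] (h2 : (2 : K) ≠ 0) (h3 : (3 : K) ≠ 0) :
    (∀ n, 4 ≤ n → DescP n K) ∧ (∀ n, 1 ≤ n → DescM n K) ∧
    (∀ n, 4 ≤ n → (IsoP n K ↔ Odd n)) ∧ (∀ n, 1 ≤ n → (IsoM n K ↔ Odd n)) ∧
    (∀ f : AP 1 K, f = 1) ∧ ¬ IsoP 1 K ∧
    (∀ f : HP 2 K ≃ₗ[K] HP 2 K, IsHom K jordan f ↔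
      (∀ X : HP 2 K, X.mat = 1 → f X = X) ∧ ∀ X : HP 2 K, det2 (f X).mat = det2 X.mat) ∧
    ¬ IsoP 2 K := by
  obtain ⟨m1, m2, m3, m4, m5, m6, m7, m8⟩ := main K h2 h3
  have hP : ∀ n, IsoP n K ↔ Nonempty (AutP n K ≃* AutO K × SO n K) := fun n =>
    ⟨fun ⟨e⟩ => ⟨(eP n K).symm.trans (e.trans ((eO K).prodCongr (MulEquiv.refl _)))⟩,
      fun ⟨e⟩ => ⟨(eP n K).trans (e.trans ((eO K).symm.prodCongr (MulEquiv.refl _)))⟩⟩
  have hM : ∀ n, IsoM n K ↔ Nonempty (AutM n K ≃* AutO K × SO n K) := fun n =>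
    ⟨fun ⟨e⟩ => ⟨(eM n K).symm.trans (e.trans ((eO K).prodCongr (MulEquiv.refl _)))⟩,
      fun ⟨e⟩ => ⟨(eM n K).trans (e.trans ((eO K).symm.prodCongr (MulEquiv.refl _)))⟩⟩
  refine ⟨fun n hn => ?_, fun n hn => ?_, fun n hn => ?_, fun n hn => ?_, fun f => ?_, ?_,
    fun f => ?_, ?_⟩
  · obtain ⟨Φ, h1, hs, hk⟩ := m1 n hn
    refine ⟨((eP n K).symm.toMonoidHom.comp Φ).comp
      (((eO K).prodCongr (MulEquiv.refl (GO n K))).toMonoidHom), fun t g X => h1 (eO K t) g X,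
      ?_, fun t g => ?_⟩
    · exact ((eP n K).symm.surjective.comp hs).comp
        ((eO K).prodCongr (MulEquiv.refl (GO n K))).surjective
    · have := hk (eO K t) g
      rw [MulEquiv.map_eq_one_iff] at this
      rw [← this]
      show (eP n K).symm (Φ (eO K t, g)) = 1 ↔ _
      rw [MulEquiv.map_eq_one_iff]
  · obtain ⟨Φ, h1, hs, hk⟩ := m2 n hn
    refine ⟨((eM n K).symm.toMonoidHom.comp Φ).comp
      (((eO K).prodCongr (MulEquiv.refl (GO n K))).toMonoidHom), fun t g X => h1 (eO K t) g X,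
      ?_, fun t g => ?_⟩
    · exact ((eM n K).symm.surjective.comp hs).comp
        ((eO K).prodCongr (MulEquiv.refl (GO n K))).surjective
    · have := hk (eO K t) g
      rw [MulEquiv.map_eq_one_iff] at this
      rw [← this]
      show (eM n K).symm (Φ (eO K t, g)) = 1 ↔ _
      rw [MulEquiv.map_eq_one_iff]
  · rw [hP]; exact m3 n hn
  · rw [hM]; exact m4 n hn
  · apply (eP 1 K).injective
    rw [map_one]
    exact Subtype.ext (m5 _ (eP 1 K f).2)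
  · rw [hP, not_nonempty_iff]; exact m6
  · refine Iff.trans ⟨fun hf => ?_, fun hf X Y => ?_⟩ (m7 f)
    · exact (eP 2 K ⟨f, hf⟩).2
    · exact ((eP 2 K).symm ⟨f, hf⟩).2 X Y
  · rw [hP, not_nonempty_iff]; exact m8

end Pool.Agent.Q19.HO
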