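import Pool.Agent.Q19.HO.Stm

/-!
Project HO: comparison of the automorphism groups with `G₂ × SO(n)`.
-/

set_option autoImplicit false

namespace Pool.Agent.Q19.HO

open Matrix

lemma aux_so_mul {K : Type} [Field K] {n : ℕ} {g h : (Matrix (Fin n) (Fin n) K)ˣ}
    (hg : (g : Matrix (Fin n) (Fin n) K)ᵀ * (g : Matrix (Fin n) (Fin n) K) = 1 ∧
      (g : Matrix (Fin n) (Fin n) K).det = 1)
    (hh : (h : Matrix (Fin n) (Fin n) K)ᵀ * (h : Matrix (Fin n) (Fin n) K) = 1 ∧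
      (h : Matrix (Fin n) (Fin n) K).det = 1) :
    ((g * h : (Matrix (Fin n) (Fin n) K)ˣ) : Matrix (Fin n) (Fin n) K)ᵀ *
      ((g * h : (Matrix (Fin n) (Fin n) K)ˣ) : Matrix (Fin n) (Fin n) K) = 1 ∧
    ((g * h : (Matrix (Fin n) (Fin n) K)ˣ) : Matrix (Fin n) (Fin n) K).det = 1 := by
  refine ⟨?_, ?_⟩
  · show ((g : Matrix (Fin n) (Fin n) K) * (h : Matrix (Fin n) (Fin n) K))ᵀ *
      ((g : Matrix (Fin n) (Fin n) K) * (h : Matrix (Fin n) (Fin n) K)) = 1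
    rw [Matrix.transpose_mul]
    calc (h : Matrix (Fin n) (Fin n) K)ᵀ * (g : Matrix (Fin n) (Fin n) K)ᵀ *
          ((g : Matrix (Fin n) (Fin n) K) * (h : Matrix (Fin n) (Fin n) K))
        = (h : Matrix (Fin n) (Fin n) K)ᵀ * ((g : Matrix (Fin n) (Fin n) K)ᵀ *
          (g : Matrix (Fin n) (Fin n) K)) * (h : Matrix (Fin n) (Fin n) K) := by
          simp only [Matrix.mul_assoc]
      _ = 1 := by rw [hg.1, Matrix.mul_one, hh.1]
  · show ((g : Matrix (Fin n) (Fin n) K) * (h : Matrix (Fin n) (Fin n) K)).det = 1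
    rw [Matrix.det_mul, hg.2, hh.2, one_mul]

lemma aux_so_one {K : Type} [Field K] {n : ℕ} :
    ((1 : (Matrix (Fin n) (Fin n) K)ˣ) : Matrix (Fin n) (Fin n) K)ᵀ *
      ((1 : (Matrix (Fin n) (Fin n) K)ˣ) : Matrix (Fin n) (Fin n) K) = 1 ∧
    ((1 : (Matrix (Fin n) (Fin n) K)ˣ) : Matrix (Fin n) (Fin n) K).det = 1 := ⟨by simp, by simp⟩

lemma aux_so_inv {K : Type} [Field K] {n : ℕ} {g : (Matrix (Fin n) (Fin n) K)ˣ}
    (hg : (g : Matrix (Fin n) (Fin n) K)ᵀ * (g : Matrix (Fin n) (Fin n) K) = 1 ∧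
      (g : Matrix (Fin n) (Fin n) K).det = 1) :
    ((g⁻¹ : (Matrix (Fin n) (Fin n) K)ˣ) : Matrix (Fin n) (Fin n) K)ᵀ *
      ((g⁻¹ : (Matrix (Fin n) (Fin n) K)ˣ) : Matrix (Fin n) (Fin n) K) = 1 ∧
    ((g⁻¹ : (Matrix (Fin n) (Fin n) K)ˣ) : Matrix (Fin n) (Fin n) K).det = 1 := by
  have h1 : (↑g⁻¹ : Matrix (Fin n) (Fin n) K) = (g : Matrix (Fin n) (Fin n) K)ᵀ := by
    calc (↑g⁻¹ : Matrix (Fin n) (Fin n) K)
        = ((g : Matrix (Fin n) (Fin n) K)ᵀ * (g : Matrix (Fin n) (Fin n) K)) *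
            (↑g⁻¹ : Matrix (Fin n) (Fin n) K) := by rw [hg.1, Matrix.one_mul]
      _ = (g : Matrix (Fin n) (Fin n) K)ᵀ := by
          rw [Matrix.mul_assoc, Units.mul_inv, Matrix.mul_one]
  refine ⟨?_, ?_⟩
  · show (↑g⁻¹ : Matrix (Fin n) (Fin n) K)ᵀ * (↑g⁻¹ : Matrix (Fin n) (Fin n) K) = 1
    rw [h1, Matrix.transpose_transpose, ← h1, Units.mul_inv]
  · show (↑g⁻¹ : Matrix (Fin n) (Fin n) K).det = 1
    rw [h1, Matrix.det_transpose, hg.2]

/-- the special orthogonal group of the form `∑ xᵢ²` -/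
def SO (n : ℕ) (K : Type) [Field K] : Subgroup (Matrix (Fin n) (Fin n) K)ˣ where
  carrier := {g | (g : Matrix (Fin n) (Fin n) K)ᵀ * (g : Matrix (Fin n) (Fin n) K) = 1 ∧
    (g : Matrix (Fin n) (Fin n) K).det = 1}
  mul_mem' := fun {_ _} hg hh => aux_so_mul hg hh
  one_mem' := aux_so_one
  inv_mem' := fun {_} hg => aux_so_inv hg

variable {K : Type} [Field K] {n : ℕ}

lemma so_le_go {g : (Matrix (Fin n) (Fin n) K)ˣ} (hg : g ∈ SO n K) : g ∈ GO n K :=
  ⟨1, by rw [one_smul]; exact hg.1⟩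

/-- the inclusion of `SO` in `GO` -/
def inc (n : ℕ) (K : Type) [Field K] : SO n K →* GO n K where
  toFun := fun g => ⟨g.1, so_le_go g.2⟩
  map_one' := rfl
  map_mul' := fun _ _ => rfl

section
variable {A : Type} [Group A] (Φ : (AutO K × GO n K) →* A) (hs : Function.Surjective Φ)
  (hk : ∀ t g, Φ (t, g) = 1 ↔ t = 1 ∧ ∃ r : K,
    ((g : (Matrix (Fin n) (Fin n) K)ˣ) : Matrix (Fin n) (Fin n) K) = r • 1)

include hs hk

lemma odd_iso (hodd : S_ODD) (hn : Odd n) : Nonempty (A ≃* AutO K × SO n K) := by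
  obtain ⟨h1, h2⟩ := hodd K n hn
  let Ψ : (AutO K × SO n K) →* A := Φ.comp ((MonoidHom.id (AutO K)).prodMap (inc n K))
  have hinj : Function.Injective Ψ := by
    rw [injective_iff_map_eq_one]
    rintro ⟨t, g⟩ hg
    obtain ⟨ht, r, hr⟩ := (hk t (inc n K g)).1 hg
    have hg' : (g : (Matrix (Fin n) (Fin n) K)ˣ) ∈ SO n K := g.2
    have hr' : ((g : (Matrix (Fin n) (Fin n) K)ˣ) : Matrix (Fin n) (Fin n) K) = r • 1 := hr
    have hr1 : r = 1 := by
      apply h2 r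
      · rw [← hr']; exact hg'.1
      · rw [← hr']; exact hg'.2
    have : g = 1 := by
      apply Subtype.ext
      apply Units.ext
      rw [hr', hr1, one_smul]
      rfl
    rw [ht, this]
    rfl
  have hsur : Function.Surjective Ψ := by
    intro a
    obtain ⟨⟨t, g⟩, rfl⟩ := hs a
    obtain ⟨ν, h, hν, hh, hd, hgh⟩ := h1 g g.2
    have hh' : h * hᵀ = 1 := mul_eq_one_comm.1 hh
    let u : (Matrix (Fin n) (Fin n) K)ˣ := ⟨h, hᵀ, hh', hh⟩
    have hu : u ∈ SO n K := ⟨hh, hd⟩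
    refine ⟨(t, ⟨u, hu⟩), ?_⟩
    show Φ (t, inc n K ⟨u, hu⟩) = Φ (t, g)
    have h3 : Φ (1, (inc n K ⟨u, hu⟩)⁻¹ * g) = 1 := by
      rw [hk]
      refine ⟨rfl, ν, ?_⟩
      show (↑u⁻¹ : Matrix (Fin n) (Fin n) K) * ((g : (Matrix (Fin n) (Fin n) K)ˣ) :
        Matrix (Fin n) (Fin n) K) = ν • 1
      rw [hgh]
      show hᵀ * (ν • h) = ν • 1
      rw [Matrix.mul_smul, hh]
    have h4 : (t, g) = (t, inc n K ⟨u, hu⟩) * (1, (inc n K ⟨u, hu⟩)⁻¹ * g) := by
      rw [Prod.mk_mul_mk, mul_one, mul_inv_cancel_left]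
    rw [h4, map_mul, h3, mul_one]
  exact ⟨(MulEquiv.ofBijective Ψ ⟨hinj, hsur⟩).symm⟩

/-- central elements of the group `A` -/
lemma centre (hzo : S_ZO) (hzp : S_ZP) (h20 : (2 : K) ≠ 0) (hn : 2 ≤ n) (z : A)
    (hz : ∀ a : A, z * a = a * z) : z * z = 1 ∧ (3 ≤ n → z = 1) := by
  obtain ⟨⟨t, g⟩, rfl⟩ := hs z
  have hcomm : ∀ s h, (t * s = s * t) ∧ ∃ μ : K,
      ((g : (Matrix (Fin n) (Fin n) K)ˣ) : Matrix (Fin n) (Fin n) K) *
        ((h : GO n K) : (Matrix (Fin n) (Fin n) K)ˣ) =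
      μ • (((h : (Matrix (Fin n) (Fin n) K)ˣ) : Matrix (Fin n) (Fin n) K) *
        ((g : (Matrix (Fin n) (Fin n) K)ˣ) : Matrix (Fin n) (Fin n) K)) := by
    intro s h
    have h1 := hz (Φ (s, h))
    rw [← map_mul, ← map_mul, Prod.mk_mul_mk, Prod.mk_mul_mk] at h1
    have h2 : Φ ((s * t)⁻¹ * (t * s), (h * g)⁻¹ * (g * h)) = 1 := by
      have : ((s * t)⁻¹ * (t * s), (h * g)⁻¹ * (g * h)) =
          (s * t, h * g)⁻¹ * (t * s, g * h) := rfl
      rw [this, map_mul, map_inv, ← h1, inv_mul_cancel]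
    obtain ⟨h3, μ, h4⟩ := (hk _ _).1 h2
    refine ⟨?_, μ, ?_⟩
    · rw [inv_mul_eq_one] at h3
      exact h3.symm
    · have h5 : ((g * h : GO n K) : (Matrix (Fin n) (Fin n) K)ˣ) =
          ((h * g : GO n K) : (Matrix (Fin n) (Fin n) K)ˣ) *
            (((h * g)⁻¹ * (g * h) : GO n K) : (Matrix (Fin n) (Fin n) K)ˣ) := by
        rw [← Subgroup.coe_mul, mul_inv_cancel_left]
      have h6 := congrArg (fun u : (Matrix (Fin n) (Fin n) K)ˣ => (u : Matrix (Fin n) (Fin n) K)) h5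
      have h7 : ((g : (Matrix (Fin n) (Fin n) K)ˣ) : Matrix (Fin n) (Fin n) K) *
          ((h : (Matrix (Fin n) (Fin n) K)ˣ) : Matrix (Fin n) (Fin n) K) =
          (((h : (Matrix (Fin n) (Fin n) K)ˣ) : Matrix (Fin n) (Fin n) K) *
          ((g : (Matrix (Fin n) (Fin n) K)ˣ) : Matrix (Fin n) (Fin n) K)) *
          ((((h * g)⁻¹ * (g * h) : GO n K) : (Matrix (Fin n) (Fin n) K)ˣ) :
            Matrix (Fin n) (Fin n) K) := h6
      rw [h7, h4, Matrix.mul_smul, Matrix.mul_one]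
  have ht : t = 1 := by
    apply Subtype.ext
    apply (hzo K h20).1 t.1 t.2
    intro s hs'
    have := (hcomm ⟨s, hs'⟩ 1).1
    exact congrArg Subtype.val this
  obtain ⟨h5, r, h6⟩ := hzp K n h20 hn g g.2 fun h hh => (hcomm 1 ⟨h, hh⟩).2
  refine ⟨?_, ?_⟩
  · rw [← map_mul, Prod.mk_mul_mk, hk]
    refine ⟨by rw [ht, mul_one], r, h6⟩
  · intro h3
    exact (hk t g).2 ⟨ht, h5 h3⟩

omit hs hk in
/-- a group in which central elements have square one is not `G₂ × SO(2)` -/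
lemma two_no (h20 : (2 : K) ≠ 0)
    (hc : ∀ z : A, (∀ a : A, z * a = a * z) → z * z = 1) : IsEmpty (A ≃* AutO K × SO 2 K) := by
  refine ⟨fun e => ?_⟩
  let M : Matrix (Fin 2) (Fin 2) K := !![0, -1; 1, 0]
  have hM1 : M * Mᵀ = 1 := by
    ext i j
    fin_cases i <;> fin_cases j <;> simp [M, Matrix.mul_apply, Fin.sum_univ_two]
  have hM2 : Mᵀ * M = 1 := by
    ext i j
    fin_cases i <;> fin_cases j <;> simp [M, Matrix.mul_apply, Fin.sum_univ_two]
  let u : (Matrix (Fin 2) (Fin 2) K)ˣ := ⟨M, Mᵀ, hM1, hM2⟩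
  have hu : u ∈ SO 2 K := ⟨hM2, by simp [u, M, Matrix.det_fin_two]⟩
  have hcen : ∀ g : SO 2 K, (⟨u, hu⟩ : SO 2 K) * g = g * ⟨u, hu⟩ := by
    intro g
    apply Subtype.ext
    apply Units.ext
    show M * ((g : (Matrix (Fin 2) (Fin 2) K)ˣ) : Matrix (Fin 2) (Fin 2) K) =
      ((g : (Matrix (Fin 2) (Fin 2) K)ˣ) : Matrix (Fin 2) (Fin 2) K) * M
    obtain ⟨h1, h2⟩ := g.2
    set G := ((g : (Matrix (Fin 2) (Fin 2) K)ˣ) : Matrix (Fin 2) (Fin 2) K)
    have h1' : G * Gᵀ = 1 := mul_eq_one_comm.1 h1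
    have a1 := congrFun (congrFun h1 0) 0
    have a2 := congrFun (congrFun h1 0) 1
    have a3 := congrFun (congrFun h1 1) 1
    simp only [Matrix.mul_apply, Fin.sum_univ_two, Matrix.transpose_apply, Matrix.one_apply_eq]
      at a1 a3
    rw [Matrix.mul_apply, Fin.sum_univ_two, Matrix.one_apply_ne (by decide)] at a2
    simp only [Matrix.transpose_apply] at a2
    rw [Matrix.det_fin_two] at h2
    have e1 : G 0 0 = G 1 1 := by
      linear_combination (G 1 1) * a1 - (G 1 0) * a2 - (G 0 0) * h2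
    have e2 : G 0 1 = -G 1 0 := by
      linear_combination (-(G 0 1)) * a1 + (G 0 0) * a2 - (G 1 0) * h2
    ext i j
    fin_cases i <;> fin_cases j <;>
      simp [M, Matrix.mul_apply, Fin.sum_univ_two, e1, e2]
  let c : AutO K × SO 2 K := (1, ⟨u, hu⟩)
  have hc1 : ∀ a, e.symm c * a = a * e.symm c := by
    intro a
    apply e.injective
    rw [map_mul, map_mul, e.apply_symm_apply]
    refine Prod.ext ?_ ?_
    · show 1 * (e a).1 = (e a).1 * 1
      rw [one_mul, mul_one]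
    · exact hcen (e a).2
  have h3 := hc _ hc1
  have h4 : c * c = 1 := by
    have := congrArg e h3
    rwa [map_mul, e.apply_symm_apply, map_one] at this
  have h5 : M * M = 1 := by
    have h6 : (⟨u, hu⟩ : SO 2 K) * ⟨u, hu⟩ = 1 := (Prod.ext_iff.1 h4).2
    have h7 := congrArg (fun v : SO 2 K => ((v : (Matrix (Fin 2) (Fin 2) K)ˣ) :
      Matrix (Fin 2) (Fin 2) K)) h6
    exact h7
  have h6 := congrFun (congrFun h5 0) 0
  simp [M, Matrix.mul_apply, Fin.sum_univ_two] at h6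
  apply h20
  linear_combination (-1 : K) * h6

lemma even_no (hzo : S_ZO) (hzp : S_ZP) (h20 : (2 : K) ≠ 0) (hn : 1 ≤ n) (he : ¬ Odd n) :
    IsEmpty (A ≃* AutO K × SO n K) := by
  have hev : Even n := Nat.not_odd_iff_even.1 he
  have hn2 : 2 ≤ n := by
    obtain ⟨k, hk'⟩ := hev
    omega
  by_cases h2 : n = 2
  · subst h2
    exact two_no h20 fun z hz => (centre Φ hs hk hzo hzp h20 hn2 z hz).1
  · have hn3 : 3 ≤ n := by omega
    refine ⟨fun e => ?_⟩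
    let u : (Matrix (Fin n) (Fin n) K)ˣ := -1
    have hu : u ∈ SO n K := by
      refine ⟨?_, ?_⟩
      · show (-(1 : Matrix (Fin n) (Fin n) K))ᵀ * (-(1 : Matrix (Fin n) (Fin n) K)) = 1
        simp
      · show (-(1 : Matrix (Fin n) (Fin n) K)).det = 1
        rw [Matrix.det_neg, Matrix.det_one, mul_one, Fintype.card_fin, hev.neg_one_pow]
    let c : AutO K × SO n K := (1, ⟨u, hu⟩)
    have hc1 : ∀ a, e.symm c * a = a * e.symm c := by
      intro a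
      apply e.injective
      rw [map_mul, map_mul, e.apply_symm_apply]
      refine Prod.ext ?_ ?_
      · show 1 * (e a).1 = (e a).1 * 1
        rw [one_mul, mul_one]
      · apply Subtype.ext
        show (-1 : (Matrix (Fin n) (Fin n) K)ˣ) * ((e a).2 : (Matrix (Fin n) (Fin n) K)ˣ) =
          ((e a).2 : (Matrix (Fin n) (Fin n) K)ˣ) * (-1)
        rw [neg_one_mul, mul_neg_one]
    have h3 := (centre Φ hs hk hzo hzp h20 hn2 _ hc1).2 hn3
    have h4 : c = 1 := by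
      have := congrArg e h3
      rwa [e.apply_symm_apply, map_one] at this
    have h5 : (⟨u, hu⟩ : SO n K) = 1 := (Prod.ext_iff.1 h4).2
    have h6 : (-(1 : Matrix (Fin n) (Fin n) K)) = 1 :=
      congrArg (fun v : SO n K => ((v : (Matrix (Fin n) (Fin n) K)ˣ) :
        Matrix (Fin n) (Fin n) K)) h5
    have h7 := congrFun (congrFun h6 ⟨0, by omega⟩) ⟨0, by omega⟩
    simp at h7
    apply h20
    linear_combination (-1 : K) * h7

end

end Pool.Agent.Q19.HO
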