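import Pool.Agent.Q19.HO.Top


/-!
Project HO: the main theorem.
-/

set_option autoImplicit false

namespace Pool.Agent.Q19.HO

open Matrix

theorem main0 (hom : S_HOM) (ker : S_KER) (surp : S_SURP) (surm : S_SURM) (one : S_ONE) (zo : S_ZO) (zp : S_ZP) (odd : S_ODD) (two : S_TWO) (K : Type) [Field K] (h2 : (2 : K) ≠ 0) (h3 : (3 : K) ≠ 0) :
    (∀ n, 4 ≤ n → ∃ Φ : (AutO K × GO n K) →* AutP n K,
      (∀ (t : AutO K) (g : GO n K) (X : SymP n K),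
        (((Φ (t, g) : AutP n K) : SymP n K ≃ₗ[K] SymP n K) X : Mat n K) =
          act (t : Oct K ≃ₗ[K] Oct K) (g : (Matrix (Fin n) (Fin n) K)ˣ) X) ∧
      Function.Surjective Φ ∧
      ∀ (t : AutO K) (g : GO n K), Φ (t, g) = 1 ↔ t = 1 ∧ ∃ r : K,
        ((g : (Matrix (Fin n) (Fin n) K)ˣ) : Matrix (Fin n) (Fin n) K) = r • 1) ∧
    (∀ n, 1 ≤ n → ∃ Φ : (AutO K × GO n K) →* AutM n K,
      (∀ (t : AutO K) (g : GO n K) (X : SymM n K),
        (((Φ (t, g) : AutM n K) : SymM n K ≃ₗ[K] SymM n K) X : Mat n K) =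
          act (t : Oct K ≃ₗ[K] Oct K) (g : (Matrix (Fin n) (Fin n) K)ˣ) X) ∧
      Function.Surjective Φ ∧
      ∀ (t : AutO K) (g : GO n K), Φ (t, g) = 1 ↔ t = 1 ∧ ∃ r : K,
        ((g : (Matrix (Fin n) (Fin n) K)ˣ) : Matrix (Fin n) (Fin n) K) = r • 1) ∧
    (∀ n, 4 ≤ n → (Nonempty (AutP n K ≃* AutO K × SO n K) ↔ Odd n)) ∧
    (∀ n, 1 ≤ n → (Nonempty (AutM n K ≃* AutO K × SO n K) ↔ Odd n)) ∧
    (∀ f ∈ AutP 1 K, f = 1) ∧ IsEmpty (AutP 1 K ≃* AutO K × SO 1 K) ∧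
    (∀ f : SymP 2 K ≃ₗ[K] SymP 2 K, f ∈ AutP 2 K ↔
      (∀ X : SymP 2 K, (X : Mat 2 K) = 1 → f X = X) ∧
        ∀ X : SymP 2 K, det2 (f X : Mat 2 K) = det2 (X : Mat 2 K)) ∧
    IsEmpty (AutP 2 K ≃* AutO K × SO 2 K) := by
  refine ⟨fun n hn => topP hom ker surp h2 hn, fun n hn => topM hom ker surm h2 h3 hn, ?_, ?_,
    one K h2, one_no one zo h2, (two K h2).1, two_noP two h2⟩
  · intro n hn
    obtain ⟨Φ, -, hs, hk⟩ := topP (K := K) hom ker surp h2 hn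
    constructor
    · intro he
      by_contra hno
      exact (even_no Φ hs hk zo zp h2 (by omega) hno).false he.some
    · exact odd_iso Φ hs hk odd
  · intro n hn
    obtain ⟨Φ, -, hs, hk⟩ := topM (K := K) hom ker surm h2 h3 hn
    constructor
    · intro he
      by_contra hno
      exact (even_no Φ hs hk zo zp h2 hn hno).false he.some
    · exact odd_iso Φ hs hk odd

end Pool.Agent.Q19.HO
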