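import Pool.Agent.Q19.HO.Stm

/-!
Project HO: surjectivity for the skew-Hermitian matrices.
-/

set_option autoImplicit false

namespace Pool.Agent.Q19.HO.SURM

open Matrix Pool.Agent.Q19.HO

variable {K : Type} [Field K] {n : ℕ}

lemma br_mem {X Y : Mat n K} (hX : X ∈ SymM n K) (hY : Y ∈ SymM n K) : br X Y ∈ SymM n K := by
  intro i j
  simp only [br, Matrix.sub_apply, Matrix.mul_apply, star_sub, star_sum, star_mul]
  rw [neg_sub]
  congr 1
  · exact Finset.sum_congr rfl fun k _ => by rw [hX, hY, neg_mul_neg]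
  · exact Finset.sum_congr rfl fun k _ => by rw [hX, hY, neg_mul_neg]

/-- the bracket in `Sym⁻` -/
def brS (X Y : SymM n K) : SymM n K := ⟨br (X : Mat n K) Y, br_mem X.2 Y.2⟩

lemma f_br {f : SymM n K ≃ₗ[K] SymM n K} (hf : f ∈ AutM n K) (X Y : SymM n K) :
    f (brS X Y) = brS (f X) (f Y) :=
  Subtype.ext (hf X Y (brS X Y) rfl).symm

lemma re_mem {a : Matrix (Fin n) (Fin n) K} (ha : aᵀ = -a) : (re a : Mat n K) ∈ SymM n K := by
  intro i j
  show star (a j i • (1 : Oct K)) = -(a i j • (1 : Oct K))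
  have h1 : a j i = -a i j := congrFun (congrFun ha i) j
  rw [star_smul', star_one, h1, neg_smul]

lemma ten_mem {o : Oct K} (ho : Im o) : (ten (1 : Matrix (Fin n) (Fin n) K) o) ∈ SymM n K := by
  intro i j
  show star ((1 : Matrix (Fin n) (Fin n) K) j i • o) = -((1 : Matrix (Fin n) (Fin n) K) i j • o)
  have h1 : star o = -o := by
    have h0 : o 1 = -o 0 := by
      have : o 0 + o 1 = 0 := ho
      linear_combination this
    refine oct_ext fun k => ?_
    fin_cases k <;> simp [star0, star1, star2, star3, star4, star5, star6, star7, neg_ap, h0]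
  rw [star_smul', h1, smul_neg]
  by_cases hij : i = j
  · rw [hij]
  · rw [Matrix.one_apply_ne hij, Matrix.one_apply_ne (Ne.symm hij)]

lemma jacS {f : SymM n K ≃ₗ[K] SymM n K} (hf : f ∈ AutM n K) (X Y Z : SymM n K) :
    jac (f X : Mat n K) (f Y) (f Z) = 0 ↔ jac (X : Mat n K) Y Z = 0 := by
  have e1 : jac (X : Mat n K) Y Z =
      ((brS (brS X Y) Z + brS (brS Y Z) X + brS (brS Z X) Y : SymM n K) : Mat n K) := rfl
  have e2 : jac (f X : Mat n K) (f Y) (f Z) =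
      ((brS (brS (f X) (f Y)) (f Z) + brS (brS (f Y) (f Z)) (f X) +
        brS (brS (f Z) (f X)) (f Y) : SymM n K) : Mat n K) := rfl
  rw [e1, e2, ← f_br hf, ← f_br hf, ← f_br hf, ← f_br hf, ← f_br hf, ← f_br hf, ← map_add,
    ← map_add, Submodule.coe_eq_zero, Submodule.coe_eq_zero, map_eq_zero_iff f f.injective]

/-- real elements of `Sym⁻` -/
def IsRe (X : SymM n K) : Prop :=
  ∃ a : Matrix (Fin n) (Fin n) K, aᵀ = -a ∧ (X : Mat n K) = re a

lemma real_of (h1 : S_NUCM) (h20 : (2 : K) ≠ 0) (h30 : (3 : K) ≠ 0)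
    {f : SymM n K ≃ₗ[K] SymM n K} (hf : f ∈ AutM n K) (X : SymM n K) (hX : IsRe X) :
    IsRe (f X) := by
  rw [IsRe, ← h1 K n h20 h30 (f X : Mat n K) (f X).2]
  intro Y hY Z hZ
  have hall := (h1 K n h20 h30 (X : Mat n K) X.2).2 hX
  have h2 := (jacS hf X (f.symm ⟨Y, hY⟩) (f.symm ⟨Z, hZ⟩)).2 (hall _ (f.symm ⟨Y, hY⟩).2 _
    (f.symm ⟨Z, hZ⟩).2)
  rw [f.apply_symm_apply, f.apply_symm_apply] at h2
  exact h2

lemma t_one {t : Oct K ≃ₗ[K] Oct K} (ht : t ∈ AutO K) : t 1 = 1 := by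
  calc t 1 = t 1 * t (t.symm 1) := by rw [t.apply_symm_apply, mul_one]
    _ = t (1 * t.symm 1) := (ht _ _).symm
    _ = 1 := by rw [one_mul, t.apply_symm_apply]

lemma br_ten (x y : Oct K) : br (ten (1 : Matrix (Fin n) (Fin n) K) x) (ten 1 y) =
    ten 1 (x * y - y * x) := by
  have key : ∀ x y : Oct K, (ten (1 : Matrix (Fin n) (Fin n) K) x) * (ten 1 y) = ten 1 (x * y) := by
    intro x y
    ext i j
    show (∑ k, ((1 : Matrix (Fin n) (Fin n) K) i k • x) * ((1 : Matrix (Fin n) (Fin n) K) k j • y)) =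
      ((1 : Matrix (Fin n) (Fin n) K) i j • (x * y))
    rw [Finset.sum_eq_single i]
    · rw [Matrix.one_apply_eq, one_smul, mul_smul']
    · intro k _ hk
      rw [Matrix.one_apply_ne (Ne.symm hk), zero_smul, zero_mul]
    · intro h
      exact absurd (Finset.mem_univ i) h
  unfold br
  rw [key, key]
  ext i j
  show ((1 : Matrix (Fin n) (Fin n) K) i j • (x * y) - (1 : Matrix (Fin n) (Fin n) K) i j • (y * x)) =
    ((1 : Matrix (Fin n) (Fin n) K) i j • (x * y - y * x))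
  rw [smul_sub]

/-- the generating set of CENM -/
def gen (n : ℕ) (K : Type) [Field K] : Set (Mat n K) :=
  {W : Mat n K | ∃ X ∈ SymM n K, ∃ Y ∈ SymM n K,
      (∀ a : Matrix (Fin n) (Fin n) K, aᵀ = -a → br (re a) X = 0) ∧
      (∀ a : Matrix (Fin n) (Fin n) K, aᵀ = -a → br (re a) Y = 0) ∧ br X Y = W}

lemma cen_of (h1 : S_NUCM) (h20 : (2 : K) ≠ 0) (h30 : (3 : K) ≠ 0)
    {f : SymM n K ≃ₗ[K] SymM n K} (hf : f ∈ AutM n K) (X : SymM n K)
    (hX : ∀ a : Matrix (Fin n) (Fin n) K, aᵀ = -a → br (re a) (X : Mat n K) = 0) :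
    ∀ a : Matrix (Fin n) (Fin n) K, aᵀ = -a → br (re a) (f X : Mat n K) = 0 := by
  intro a ha
  have hf' : f⁻¹ ∈ AutM n K := (AutM n K).inv_mem hf
  obtain ⟨b, hb, hb'⟩ := real_of h1 h20 h30 hf' ⟨re a, re_mem ha⟩ ⟨a, ha, rfl⟩
  have h2 : f ⟨re b, re_mem hb⟩ = ⟨re a, re_mem ha⟩ := by
    have h3 : (⟨re b, re_mem hb⟩ : SymM n K) = f⁻¹ ⟨re a, re_mem ha⟩ := Subtype.ext hb'.symm
    rw [h3]
    exact f.apply_symm_apply _
  have h4 := f_br hf ⟨re b, re_mem hb⟩ X
  rw [h2] at h4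
  have h5 : brS ⟨re b, re_mem hb⟩ X = 0 := Subtype.ext (hX b hb)
  rw [h5, map_zero] at h4
  exact (congrArg Subtype.val h4).symm

lemma span_of (h1 : S_NUCM) (h20 : (2 : K) ≠ 0) (h30 : (3 : K) ≠ 0)
    {f : SymM n K ≃ₗ[K] SymM n K} (hf : f ∈ AutM n K) (W : Mat n K)
    (hW : W ∈ Submodule.span K (gen n K)) :
    ∃ W' : SymM n K, (W' : Mat n K) = W ∧ (f W' : Mat n K) ∈ Submodule.span K (gen n K) := by
  refine Submodule.span_induction (p := fun W _ => ∃ W' : SymM n K, (W' : Mat n K) = W ∧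
    (f W' : Mat n K) ∈ Submodule.span K (gen n K)) ?_ ?_ ?_ ?_ hW
  · rintro W ⟨X, hX, Y, hY, hX', hY', rfl⟩
    refine ⟨brS ⟨X, hX⟩ ⟨Y, hY⟩, rfl, Submodule.subset_span ?_⟩
    rw [f_br hf]
    exact ⟨f ⟨X, hX⟩, (f ⟨X, hX⟩).2, f ⟨Y, hY⟩, (f ⟨Y, hY⟩).2, cen_of h1 h20 h30 hf _ hX',
      cen_of h1 h20 h30 hf _ hY', rfl⟩
  · exact ⟨0, rfl, by rw [map_zero]; exact Submodule.zero_mem _⟩
  · rintro X Y _ _ ⟨X', hX, hX'⟩ ⟨Y', hY, hY'⟩
    refine ⟨X' + Y', by rw [← hX, ← hY]; rfl, ?_⟩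
    rw [map_add]
    exact Submodule.add_mem _ hX' hY'
  · rintro r X _ ⟨X', hX, hX'⟩
    refine ⟨r • X', by rw [← hX]; rfl, ?_⟩
    rw [map_smul]
    exact Submodule.smul_mem _ r hX'

lemma im_sub (x : Oct K) : Im (x - star x) := by
  show (x - star x) 0 + (x - star x) 1 = 0
  rw [sub_ap, sub_ap, star0, star1]
  ring

lemma ten_add (x y : Oct K) : ten (1 : Matrix (Fin n) (Fin n) K) (x + y) = ten 1 x + ten 1 y := by
  ext i j
  show ((1 : Matrix (Fin n) (Fin n) K) i j • (x + y)) = _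
  rw [smul_add]
  rfl

lemma ten_smul (r : K) (x : Oct K) : ten (1 : Matrix (Fin n) (Fin n) K) (r • x) = r • ten 1 x := by
  ext i j
  show ((1 : Matrix (Fin n) (Fin n) K) i j • (r • x)) = _
  rw [smul_comm]
  rfl

/-- `x ↦ ten 1 (x - star x)` -/
def J (n : ℕ) (K : Type) [Field K] : Oct K →ₗ[K] SymM n K where
  toFun := fun x => ⟨ten 1 (x - star x), ten_mem (im_sub x)⟩
  map_add' := fun x y => Subtype.ext (by
    show ten 1 (x + y - star (x + y)) = ten 1 (x - star x) + ten 1 (y - star y)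
    rw [← ten_add, star_add]
    congr 1
    abel)
  map_smul' := fun r x => Subtype.ext (by
    show ten 1 (r • x - star (r • x)) = r • ten 1 (x - star x)
    rw [← ten_smul, star_smul', smul_sub])

lemma two_im {x : Oct K} (hx : Im x) : x - star x = (2 : K) • x := by
  have h0 : x 1 = -x 0 := by
    have : x 0 + x 1 = 0 := hx
    linear_combination this
  refine oct_ext fun k => ?_
  fin_cases k <;>
    simp [star0, star1, star2, star3, star4, star5, star6, star7, sub_ap, smul_ap, h0] <;> ring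

theorem t (h1 : S_NUCM) (h2 : S_CENM) (h3 : S_MAL) (h4 : S_FIXM) (h5 : S_HOM) : S_SURM := by
  intro K _ n h20 h30 hn f hf
  obtain ⟨-, Φ, hΦ⟩ := h5 K n h20
  have i0 : Fin n := ⟨0, hn⟩
  have hten : ∀ x : Oct K, Im x → ∃ y : Oct K, Im y ∧
      ∀ X : SymM n K, (X : Mat n K) = ten 1 x → (f X : Mat n K) = ten 1 y := by
    intro x hx
    have hm : ten 1 x ∈ Submodule.span K (gen n K) := (h2 K n h20 hn _).2 ⟨x, hx, rfl⟩
    obtain ⟨W', hW, hW'⟩ := span_of h1 h20 h30 hf _ hm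
    obtain ⟨y, hy, hy'⟩ := (h2 K n h20 hn _).1 hW'
    refine ⟨y, hy, fun X hX => ?_⟩
    have : X = W' := Subtype.ext (hX.trans hW.symm)
    rw [this, hy']
  let ev : SymM n K →ₗ[K] Oct K :=
    { toFun := fun X => (X : Mat n K) i0 i0
      map_add' := fun _ _ => rfl
      map_smul' := fun _ _ => rfl }
  let T : Oct K →ₗ[K] Oct K := (2 : K)⁻¹ • (ev.comp (f.toLinearMap.comp (J n K)))
  have hT : ∀ x, Im x → ∀ X : SymM n K, (X : Mat n K) = ten 1 x → Im (T x) ∧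
      (f X : Mat n K) = ten 1 (T x) := by
    intro x hx X hX
    obtain ⟨y, hy, hy'⟩ := hten x hx
    have hJ : J n K x = (2 : K) • X := Subtype.ext (by
      show ten 1 (x - star x) = (2 : K) • (X : Mat n K)
      rw [two_im hx, ten_smul, hX])
    have hTx : T x = y := by
      show (2 : K)⁻¹ • ((f (J n K x) : Mat n K) i0 i0) = y
      rw [hJ, map_smul]
      show (2 : K)⁻¹ • ((2 : K) • ((f X : Mat n K) i0 i0)) = y
      rw [smul_smul, inv_mul_cancel₀ h20, one_smul, hy' X hX]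
      show (1 : Matrix (Fin n) (Fin n) K) i0 i0 • y = y
      rw [Matrix.one_apply_eq, one_smul]
    rw [hTx]
    exact ⟨hy, hy' X hX⟩
  have ten_inj : ∀ x y : Oct K, ten (1 : Matrix (Fin n) (Fin n) K) x = ten 1 y → x = y := by
    intro x y h
    have := congrFun (congrFun h i0) i0
    change (1 : Matrix (Fin n) (Fin n) K) i0 i0 • x = (1 : Matrix (Fin n) (Fin n) K) i0 i0 • y at this
    rwa [Matrix.one_apply_eq, one_smul, one_smul] at this
  obtain ⟨t, ht, htT⟩ := h3 K h20 T (fun x hx => (hT x hx ⟨_, ten_mem hx⟩ rfl).1)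
    (fun x hx h0 => by
      have h6 := (hT x hx ⟨_, ten_mem hx⟩ rfl).2
      rw [h0] at h6
      have h7 : f ⟨_, ten_mem hx⟩ = 0 := Subtype.ext (by
        rw [h6]
        ext i j
        show ((1 : Matrix (Fin n) (Fin n) K) i j • (0 : Oct K)) = _
        rw [smul_zero]
        rfl)
      have h8 := (map_eq_zero_iff f f.injective).1 h7
      have h9 : ten (1 : Matrix (Fin n) (Fin n) K) x = ten 1 0 := by
        have h9' : ten (1 : Matrix (Fin n) (Fin n) K) x = 0 := congrArg Subtype.val h8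
        rw [h9']
        ext i j
        show _ = ((1 : Matrix (Fin n) (Fin n) K) i j • (0 : Oct K))
        rw [smul_zero]
        rfl
      exact ten_inj _ _ h9)
    (fun x y hx hy => by
      have hxy : Im (x * y - y * x) := by
        show (x * y - y * x) 0 + (x * y - y * x) 1 = 0
        rw [sub_ap, sub_ap, mul0, mul0, mul1, mul1]
        ring
      have h6 := (hT _ hxy ⟨_, ten_mem hxy⟩ rfl).2
      have h7 : (⟨ten 1 (x * y - y * x), ten_mem hxy⟩ : SymM n K) =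
          brS ⟨ten 1 x, ten_mem hx⟩ ⟨ten 1 y, ten_mem hy⟩ := Subtype.ext (br_ten x y).symm
      rw [h7, f_br hf] at h6
      have h8 : br (f ⟨ten 1 x, ten_mem hx⟩ : Mat n K) (f ⟨ten 1 y, ten_mem hy⟩) =
          ten 1 (T (x * y - y * x)) := h6
      rw [(hT x hx ⟨_, ten_mem hx⟩ rfl).2, (hT y hy ⟨_, ten_mem hy⟩ rfl).2, br_ten] at h8
      exact (ten_inj _ _ h8).symm)
  -- compose with the automorphism `t`
  have hF : ∀ X : SymM n K, (((Φ (⟨t, ht⟩, 1) : AutM n K) : SymM n K ≃ₗ[K] SymM n K) X : Mat n K) =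
      (X : Mat n K).map t := by
    intro X
    rw [hΦ]
    have hre : (re (1 : Matrix (Fin n) (Fin n) K) : Mat n K) = 1 := by
      ext i j
      show ((1 : Matrix (Fin n) (Fin n) K) i j • (1 : Oct K)) = _
      by_cases hij : i = j
      · rw [hij, Matrix.one_apply_eq, Matrix.one_apply_eq, one_smul]
      · rw [Matrix.one_apply_ne hij, Matrix.one_apply_ne hij, zero_smul]
    show re (1 : Matrix (Fin n) (Fin n) K) * (X : Mat n K).map t *
      re (↑(1 : (Matrix (Fin n) (Fin n) K)ˣ)⁻¹ : Matrix (Fin n) (Fin n) K) = (X : Mat n K).map t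
    rw [inv_one, Units.val_one, hre, one_mul, mul_one]
  set F : AutM n K := Φ (⟨t, ht⟩, 1) with hFdef
  have hf' : (F : SymM n K ≃ₗ[K] SymM n K)⁻¹ * f ∈ AutM n K :=
    (AutM n K).mul_mem ((AutM n K).inv_mem F.2) hf
  have hmap_real : ∀ a : Matrix (Fin n) (Fin n) K, (re a : Mat n K).map t = re a := by
    intro a
    ext i j
    show (t (a i j • (1 : Oct K))) = _
    rw [map_smul, t_one ht]
    rfl
  have hmap_ten : ∀ x : Oct K, (ten (1 : Matrix (Fin n) (Fin n) K) x).map t = ten 1 (t x) := by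
    intro x
    ext i j
    show (t ((1 : Matrix (Fin n) (Fin n) K) i j • x)) = _
    rw [map_smul]
    rfl
  have hinvF : ∀ X Y : SymM n K, (F : SymM n K ≃ₗ[K] SymM n K) X = Y →
      ((F : SymM n K ≃ₗ[K] SymM n K)⁻¹ : SymM n K ≃ₗ[K] SymM n K) Y = X := by
    intro X Y h
    rw [← h]
    exact (F : SymM n K ≃ₗ[K] SymM n K).symm_apply_apply X
  obtain ⟨g, hg, hgf⟩ := h4 K n h20 hn _ hf'
    (fun X ⟨o, ho, hX⟩ => by
      show ((F : SymM n K ≃ₗ[K] SymM n K)⁻¹ : SymM n K ≃ₗ[K] SymM n K) (f X) = X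
      apply hinvF
      apply Subtype.ext
      rw [hF, (hT o ho X hX).2, hX, hmap_ten, htT o ho])
    (fun X hX => by
      obtain ⟨a, ha, hfa⟩ := real_of h1 h20 h30 hf X hX
      refine ⟨a, ha, ?_⟩
      have h6 : ((F : SymM n K ≃ₗ[K] SymM n K)⁻¹ : SymM n K ≃ₗ[K] SymM n K) (f X) = f X := by
        apply hinvF
        apply Subtype.ext
        rw [hF, hfa, hmap_real]
      show ((((F : SymM n K ≃ₗ[K] SymM n K)⁻¹ : SymM n K ≃ₗ[K] SymM n K) (f X) : SymM n K) :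
        Mat n K) = re a
      rw [h6, hfa])
  refine ⟨t, ht, g, hg, fun X => ?_⟩
  have h6 : (F : SymM n K ≃ₗ[K] SymM n K)⁻¹ * f =
      ((Φ (1, ⟨g, hg⟩) : AutM n K) : SymM n K ≃ₗ[K] SymM n K) := by
    apply LinearEquiv.ext
    intro X
    apply Subtype.ext
    rw [hgf, hΦ]
    rfl
  have h7 : f = ((Φ (⟨t, ht⟩, ⟨g, hg⟩) : AutM n K) : SymM n K ≃ₗ[K] SymM n K) := by
    have h8 : ((⟨t, ht⟩, ⟨g, hg⟩) : AutO K × GO n K) = (⟨t, ht⟩, 1) * (1, ⟨g, hg⟩) := by
      rw [Prod.mk_mul_mk, mul_one, one_mul]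
    rw [h8, map_mul, Subgroup.coe_mul, ← h6, ← hFdef, mul_inv_cancel_left]
  rw [h7, hΦ]

end Pool.Agent.Q19.HO.SURM
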