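import Pool.Agent.Q19.HO.Defs

/-!
Project HO (helper19): statements of the lemmas, with proofs in the docstrings. Every statement is a
`def S_xx : Prop`; a job is `theorem t_xx (hypotheses S_yy if needed) : S_xx`.

Throughout `K` is a field with `2 ≠ 0` (and `3 ≠ 0` where needed), `Oct K` the split octonions
(eight coordinates, explicit product: lemmas `mul0 … mul7`, `star0 … star7`, `add_ap`, `smul_ap`;
use `oct_ext`, `fin_cases`, `simp`, `ring` as in `Defs.lean`), `Mat n K` the `n × n` matrices over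
`Oct K` with Mathlib's matrix product (`NonAssocRing (Oct K)`), `re g` the real matrix `g` as a matrix
over `Oct K`.
-/

set_option autoImplicit false

namespace Pool.Agent.Q19.HO

open Matrix

variable {K : Type} [Field K]

/-- symmetric matrices over `K` -/
def SymK (n : ℕ) (K : Type) [Field K] : Submodule K (Matrix (Fin n) (Fin n) K) where
  carrier := {s | sᵀ = s}
  add_mem' := fun {a b} ha hb => by
    show (a + b)ᵀ = a + b
    rw [Matrix.transpose_add, ha, hb]
  zero_mem' := Matrix.transpose_zero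
  smul_mem' := fun r a ha => by
    show (r • a)ᵀ = r • a
    rw [Matrix.transpose_smul, ha]

/-- `s ⊗ o`: the matrix with entries `s i j • o` -/
def ten {n : ℕ} (s : Matrix (Fin n) (Fin n) K) (o : Oct K) : Mat n K := fun i j => s i j • o

/-- `o` is imaginary -/
def Im (o : Oct K) : Prop := o 0 + o 1 = 0

/-- derivations of the octonions -/
def IsDerO (d : Oct K →ₗ[K] Oct K) : Prop := ∀ x y, d (x * y) = d x * y + x * d y

/-- derivations of `(Sym⁺, ∘)` -/
def IsDerP {n : ℕ} (D : SymP n K →ₗ[K] SymP n K) : Prop :=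
  ∀ X Y Z : SymP n K, jp (X : Mat n K) Y = Z →
    jp (D X : Mat n K) Y + jp (X : Mat n K) (D Y) = D Z

/-- matrix unit `E_ii` over the octonions -/
def eu {n : ℕ} (i : Fin n) : Mat n K := re (Matrix.single i i 1)

/-- Jacobian of the commutator -/
def jac {n : ℕ} (X Y Z : Mat n K) : Mat n K := br (br X Y) Z + br (br Y Z) X + br (br Z X) Y

/-! ### General facts -/

/-- job TST: automorphisms of the octonions fix `1` and commute with the conjugation.
Proof: `t 1 = 1` as `t` is onto and `t 1 * t x = t x`. With `tr x = x 0 + x 1` one has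
`x * x = tr x • x - norm x • 1` and `star x = tr x • 1 - x` (coordinates). Apply `t`:
`tr x • t x - norm x • 1 = t x * t x = tr (t x) • t x - norm (t x) • 1`. If `t x` is not a multiple of
`1` then `tr (t x) = tr x` and `t (star x) = tr x • 1 - t x = star (t x)`. If `t x = r • 1` then
`x = r • 1` and both sides are `r • 1`. Also: derivations `d` of the octonions satisfy `d 1 = 0`,
`tr (d x) = 0` and `d (star x) = star (d x)`: `d 1 = d 1 + d 1`; apply `d` to
`x * x = tr x • x - norm x • 1`: `d x * x + x * d x = tr x • d x`; in any case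
`x * y + y * x = tr x • y + tr y • x - (bilinear form) • 1` (coordinates), so with `y = d x`:
`tr (d x) • x ∈ K 1`; so `tr (d x) = 0` if `x` is not a multiple of `1`, and if it is then `d x = 0`.
`star x = tr x • 1 - x`. -/
def S_TST : Prop := ∀ (K : Type) [Field K], (2 : K) ≠ 0 →
  (∀ t ∈ AutO K, t 1 = 1 ∧ ∀ x, t (star x) = star (t x)) ∧
  ∀ d : Oct K →ₗ[K] Oct K, IsDerO d → d 1 = 0 ∧ ∀ x, d (star x) = star (d x)

/-- job HOM: the actions. Define the linear equivalences with underlying map `act t g` (inverse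
`act t⁻¹ g⁻¹`), check that they are in `AutP` and `AutM` and multiplicative. Real scalars commute and
associate with everything: `(r • 1) * x = r • x`; so `(re g * X) * re h` and `re g * (X * re h)` have
entries `∑ k l, (g i k * h l j) • X k l`. `gᵀ g = r • 1` gives `g⁻¹ = r⁻¹ • gᵀ` (see the proof of
`inv_mem'` in `GO`, Defs.lean; for `n = 0` everything is trivial), so conjugate transposition is
respected. `jp` and `br`: `(re g * X * re g⁻¹) * (re g * Y * re g⁻¹) = re g * (X * Y) * re g⁻¹`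
(entries) and `(X * Y).map t = X.map t * Y.map t`. -/
def S_HOM : Prop := ∀ (K : Type) [Field K] (n : ℕ), (2 : K) ≠ 0 →
  (∃ Φ : (AutO K × GO n K) →* AutP n K, ∀ (t : AutO K) (g : GO n K) (X : SymP n K),
    (((Φ (t, g) : AutP n K) : SymP n K ≃ₗ[K] SymP n K) X : Mat n K) =
      act (t : Oct K ≃ₗ[K] Oct K) (g : (Matrix (Fin n) (Fin n) K)ˣ) X) ∧
  ∃ Φ : (AutO K × GO n K) →* AutM n K, ∀ (t : AutO K) (g : GO n K) (X : SymM n K),
    (((Φ (t, g) : AutM n K) : SymM n K ≃ₗ[K] SymM n K) X : Mat n K) =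
      act (t : Oct K ≃ₗ[K] Oct K) (g : (Matrix (Fin n) (Fin n) K)ˣ) X

/-- job KER: the kernels of the actions, and: equal actions. `act t g X = X` for all Hermitian `X`:
with `X = re s`, `s` symmetric over `K`: `g s g⁻¹ = s` (as `t 1 = 1`), so `g` commutes with all
`E_ii` (so it is diagonal) and with all `E_ij + E_ji`, so it is scalar; then `X.map t = X` for all
Hermitian `X`, with `X` having the entries `o`, `star o` at `(0,1)`, `(1,0)`: `t o = o`. Skew-Hermitian
case: `X = ten s o`, `o` imaginary, `s` symmetric: `ten (g s g⁻¹) (t o) = ten s o`; `s = 1` gives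
`t o = o` (`n ≥ 1`), and then `g s g⁻¹ = s`. `t 1 = 1` so `t = 1`. -/
def S_KER : Prop := ∀ (K : Type) [Field K] (n : ℕ), (2 : K) ≠ 0 → ∀ t ∈ AutO K,
  ∀ g : (Matrix (Fin n) (Fin n) K)ˣ,
    (2 ≤ n → (∀ X ∈ SymP n K, act t g X = X) →
      t = 1 ∧ ∃ r : K, (g : Matrix (Fin n) (Fin n) K) = r • 1) ∧
    (1 ≤ n → (∀ X ∈ SymM n K, act t g X = X) →
      t = 1 ∧ ∃ r : K, (g : Matrix (Fin n) (Fin n) K) = r • 1)

/-! ### Symmetric matrices over the field -/

/-- job JORD: Jordan automorphisms of the symmetric matrices are conjugations by similitudes.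
Proof: `f_i = ψ(E_ii)` are symmetric idempotents, nonzero, with sum `1`, and `f_i f_j + f_j f_i = 0`
for `i ≠ j`, so `f_i f_j = 0` (multiply by `f_i` on both sides). Choose `v_i ≠ 0` with `f_i v_i = v_i`;
`f_i v_j = 0` for `j ≠ i`, so the `v_i` are linearly independent, a basis (`n` vectors), the range of
`f_i` is `K v_i` (`f_i x` for `x = ∑ c_j v_j` is `c_i v_i`). `v_i ⬝ v_j = f_i v_i ⬝ v_j = v_i ⬝ f_i v_j = 0`
for `i ≠ j`, so `λ_i = v_i ⬝ v_i ≠ 0` (the form is nondegenerate) and `f_i = λ_i⁻¹ v_i v_iᵀ`. Let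
`t_ij = ψ(E_ij + E_ji)`: `t_ij f_i + f_i t_ij = t_ij` and the same for `j`, so
`t_ij = μ_ij (v_i v_jᵀ + v_j v_iᵀ)` (it maps `v_i` to a multiple of `v_j`, `v_j` to a multiple of `v_i`, the
others to `0`, and is symmetric), and `t_ij² = f_i + f_j` gives `μ_ij² λ_i λ_j = 1`. Let
`g` have the columns `g_0 = v_0`, `g_j = λ_0 μ_0j v_j`: `gᵀ g = λ_0 • 1`, `g⁻¹ = λ_0⁻¹ gᵀ`, and
`ψ(s) = g s g⁻¹` for `s = E_ii` and `s = E_0j + E_j0`; both sides are Jordan homomorphisms and
`E_ij + E_ji = (E_0i + E_i0)(E_0j + E_j0) + (E_0j + E_j0)(E_0i + E_i0)` for `0, i, j` different, so they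
agree on the basis `E_ii`, `E_ij + E_ji`. (`n = 0` trivial.) -/
def S_JORD : Prop := ∀ (K : Type) [Field K] (n : ℕ), (2 : K) ≠ 0 →
  ∀ ψ : SymK n K →ₗ[K] SymK n K, Function.Injective ψ →
    (∀ e : SymK n K, (e : Matrix (Fin n) (Fin n) K) = 1 → ψ e = e) →
    (∀ s t u : SymK n K, (s : Matrix (Fin n) (Fin n) K) * t + t * s = u →
      (ψ s : Matrix (Fin n) (Fin n) K) * (ψ t) + (ψ t) * (ψ s) = ψ u) →
    ∃ g ∈ GO n K, ∀ s : SymK n K, (ψ s : Matrix (Fin n) (Fin n) K) =
      (g : Matrix (Fin n) (Fin n) K) * s * (↑g⁻¹ : Matrix (Fin n) (Fin n) K)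

/-- job SO: ideals of the Lie algebra of skew-symmetric matrices. `F i j = E_ij - E_ji`. For `i ≠ j`
the map `P_ij = -(ad F_ij)²` is on skew matrices the projection onto the span of the `F_ia, F_ja`
(`a ≠ i, j`): it keeps the entries `(x,y)` with exactly one of `x, y` in `{i,j}` and kills the others.
Let `u ∈ U`, `u ≠ 0`, say `u x y ≠ 0`, `x ≠ y`. For `n ≥ 5` choose three different indices `a, b, c`
different from `x, y`: `P_ya P_xa P_xb P_xc u = (u x y) • F x y` up to the sign convention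
(`P_xa P_xb P_xc` keeps only the `F_xz` with `z ≠ a,b,c`; `P_ya` then keeps only `F_xy`). So `F x y ∈ U`,
and by brackets `[F_xy, F_yz] = F_xz` all `F` are in `U`. For `n = 4`, `{x,y,a,b}` all indices:
`w = P_ya P_xa P_xb u = u_xy F_xy + u_ab F_ab ∈ U` (`P_xa P_xb` keeps `F_xy` and `F_ab`, and `P_ya` keeps
both), `w ≠ 0`, and `[F_ya, w]` is a combination of `F_xa` and `F_yb` with nonzero coefficient
`±u_xy` at `F_xa`: independent of `w`. (Check entries with `Fin 4` and `decide`/`fin_cases` if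
convenient.) -/
def S_SO : Prop := ∀ (K : Type) [Field K] (n : ℕ), (2 : K) ≠ 0 → 4 ≤ n →
  ∀ U : Submodule K (Matrix (Fin n) (Fin n) K), (∀ u ∈ U, uᵀ = -u) → U ≠ ⊥ →
    (∀ a : Matrix (Fin n) (Fin n) K, aᵀ = -a → ∀ u ∈ U, a * u - u * a ∈ U) →
    (5 ≤ n ∧ ∀ a : Matrix (Fin n) (Fin n) K, aᵀ = -a → a ∈ U) ∨
      (n = 4 ∧ ∃ u ∈ U, ∃ v ∈ U, LinearIndependent K ![u, v])

/-! ### Octonions -/

/-- job STAB: subspaces of matrices stable under the derivations of the octonions. For `w : Fin 3 → K`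
the maps (in Zorn coordinates `(a,b,u,v)`)
`δ_w (a,b,u,v) = (-w·v, w·v, (a-b) w, w×u)` and
`δ'_w (a,b,u,v) = (w·u, -w·u, -(w×v), (b-a) w)` (fix the signs of the second one by computation: it is
the mirror image of the first) are derivations; also the maps `u ↦ A u`, `v ↦ -Aᵀ v`, `a, b ↦ 0` for
`A` of trace `0`. `δ_w² (a,b,u,v) = (0, 0, -2 (w·v) w, 0)`. So with `w` the first unit vector the rank
one operator `x ↦ x 5 • e₂` (`e₂` the octonion with coordinate `2` equal to `1`) preserves `W` (entrywise),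
as `2 ≠ 0`. Composing on the left with derivations one gets `x ↦ x 5 • o` for all basis elements
`o = e₂, e₃, e₄, e₅, e₆, e₇, e₀ - e₁` of the imaginary octonions (`δ_w'` maps `e₂` to `v`-vectors, `A`
permutes the `u`-coordinates, `δ'_w` maps `e₂` to `±(e₀ - e₁)`), and composing on the right with
derivations one gets `x ↦ ξ x • o` for the functionals `ξ = x 2, …, x 7, x 0 - x 1` (e.g. the
coordinate `5` of `δ_w' x` is a combination of `x 3, x 4`, of `δ'_w x` is `w 0 • (x 1 - x 0)`). A
functional with `ξ 1 = 0` is a combination of these, an imaginary `o` a combination of the basis. -/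
def S_STAB : Prop := ∀ (K : Type) [Field K] (n : ℕ), (2 : K) ≠ 0 →
  ∀ W : Submodule K (Mat n K),
    (∀ d : Oct K →ₗ[K] Oct K, IsDerO d → ∀ X ∈ W, X.map d ∈ W) →
    ∀ ξ : Oct K →ₗ[K] K, ξ 1 = 0 → ∀ o : Oct K, Im o → ∀ X ∈ W,
      ten (fun i j => ξ (X i j)) o ∈ W

/-- job NUC: the nuclei of the octonions are the scalars. If `(a x) y = a (x y)` for all `x, y` then
`a` is a scalar; the same for `(x a) y = x (a y)`. Insert basis elements and compare coordinates. -/
def S_NUC : Prop := ∀ (K : Type) [Field K], (2 : K) ≠ 0 → ∀ a : Oct K,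
  ((∀ x y, (a * x) * y = a * (x * y)) → ∃ r : K, a = r • 1) ∧
  ((∀ x y, (x * a) * y = x * (a * y)) → ∃ r : K, a = r • 1)

/-- job MAL: a linear bijection of the imaginary octonions which preserves the commutator extends to
an automorphism of the octonions. Proof: for imaginary `x, y`, with `B(x,y)` the bilinear form of the
norm normalised by `x * y = (1/2)(x y - y x) - B(x,y) 1` and `B(x,x) = norm x` (coordinates:
`x y + y x = -2 B(x,y) 1`), one has `[x,[x,y]] = 4 B(x,y) x - 4 norm x y` (coordinates). Apply `T` to this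
identity and compare with the same identity for `T x, T y`:
`4 B(Tx,Ty) Tx - 4 norm(Tx) Ty = 4 B(x,y) Tx - 4 norm(x) Ty`; choosing `y` independent of `x` (`x ≠ 0`)
gives `norm (T x) = norm x`, polarise: `B(Tx,Ty) = B(x,y)`, hence `T(x y) = T x T y` with
`t (r • 1 + x) = r • 1 + T x`. Here `T : Oct K →ₗ Oct K` is given on all octonions but used only on the
imaginary ones. (`2 ≠ 0` is used to decompose `x = (tr x / 2) • 1 + imaginary`.) -/
def S_MAL : Prop := ∀ (K : Type) [Field K], (2 : K) ≠ 0 →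
  ∀ T : Oct K →ₗ[K] Oct K, (∀ x, Im x → Im (T x)) → (∀ x, Im x → T x = 0 → x = 0) →
    (∀ x y, Im x → Im y → T (x * y - y * x) = T x * T y - T y * T x) →
    ∃ t ∈ AutO K, ∀ x, Im x → t x = T x

/-- job SCH: linear maps of the imaginary octonions commuting with all commutators are scalar.
Proof: insert `x, y` from the basis `e₀ - e₁, e₂, …, e₇` and compare coordinates; e.g. `T y` commutes with
`y` for `x = y`, so `T y` is a multiple of `y` for `y ≠ 0` imaginary (the centraliser of `y` in the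
imaginary octonions is `K y` when `norm y ≠ 0`; the identity `[y,[y,z]] = 4 B(y,z) y - 4 norm y z` gives it
at once: `z = T y` commutes with `y`, so `norm y • T y = B(y, T y) • y`). Take the anisotropic basis
`e₀ - e₁, e₂ + e₅, e₂ - e₅, e₃ + e₆, …` and sums to see that the factor is constant. -/
def S_SCH : Prop := ∀ (K : Type) [Field K], (2 : K) ≠ 0 →
  ∀ T : Oct K →ₗ[K] Oct K, (∀ x, Im x → Im (T x)) →
    (∀ x y, Im x → Im y → T (x * y - y * x) = x * T y - T y * x) →
    ∃ r : K, ∀ x, Im x → T x = r • x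

/-- job ZO: the centre of the automorphism group of the octonions is trivial, and the group is not
trivial. Proof: for the derivation `δ = δ_w` of STAB (`δ³ = 0` on the octonions, `δ² (a,b,u,v) =
(0,0,-2(w·v)w,0)`) the map `1 + δ + (1/2) δ²` is an automorphism with inverse `1 - δ + (1/2) δ²`
(coordinates); the same for `δ'`. If `t` commutes with both `1 ± δ + (1/2) δ²` then it commutes with `δ`
(`2 ≠ 0`), and so with `δ²`: `t` commutes with the operator `x ↦ x 5 • e₂`, so `t e₂ = c • e₂` with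
`c = (t e₅) 5`. In the same way (other `w`, and `δ'`) `t` maps each of `e₂, …, e₇` to a multiple of
itself, all with the same factor (commutation with the `δ_w`), and `e₀ - e₁` too, with the same
factor `c` (as `δ_w (e₀ - e₁) = 2 w`); `c ≠ 0`; `(e₀ - e₁)² = 1` gives `c² = 1` and
`e₂ e₃ = ± e₇` gives `c² = c`, so `c = 1`. `t 1 = 1`. Nontrivial: `1 + δ + (1/2) δ² ≠ 1`. -/
def S_ZO : Prop := ∀ (K : Type) [Field K], (2 : K) ≠ 0 →
  (∀ t ∈ AutO K, (∀ s ∈ AutO K, t * s = s * t) → t = 1) ∧ ∃ t ∈ AutO K, t ≠ 1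

/-! ### Hermitian matrices -/

/-- job DOP: derivations of the Hermitian matrices coming from derivations of the octonions and from
skew-symmetric real matrices. For `d` a derivation of the octonions the map `X ↦ X.map d` preserves
`SymP` (`d` commutes with `star`, S_TST) and is a derivation. For `a` skew over `K` the map
`X ↦ re a * X - X * re a` preserves `SymP` and is a derivation (real matrices associate with
everything). -/
def S_DOP : Prop := ∀ (K : Type) [Field K] (n : ℕ), (2 : K) ≠ 0 →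
  (∀ d : Oct K →ₗ[K] Oct K, IsDerO d → ∃ D : SymP n K →ₗ[K] SymP n K, IsDerP D ∧
    ∀ X : SymP n K, (D X : Mat n K) = (X : Mat n K).map d) ∧
  ∀ a : Matrix (Fin n) (Fin n) K, aᵀ = -a → ∃ D : SymP n K →ₗ[K] SymP n K, IsDerP D ∧
    ∀ X : SymP n K, (D X : Mat n K) = re a * (X : Mat n K) - (X : Mat n K) * re a

/-- job DER1: values of a derivation at the idempotents `e_i = eu i`. From `e_i ∘ e_i = e_i`:
`2 e_i ∘ D e_i = D e_i`, and `(2 e_i ∘ X)_jk = ([i=j] + [i=k]) X_jk`, so `(D e_i)_jk = 0` unless exactly one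
of `j, k` is `i` (`2 ≠ 0`). Fix `i`, put `a_p = (D e_i)_ip` (`p ≠ i`), `a_i = 0`. If `e_i ∘ x = 0` then
`D e_i ∘ x + e_i ∘ D x = 0`, and the `(i,m)` entry (`m ≠ i`) gives `(D x)_im = - ∑_p a_p x_pm`. Let `i, j, k, l`
be different (`n ≥ 4`), `x` the Hermitian matrix with entries `w` at `(j,k)` and `star w` at `(k,j)`,
`z` the one with `b` at `(k,l)`, `star b` at `(l,k)`. `e_i ∘ x = e_i ∘ z = 0`, `x ∘ z` has the entry
`(1/2) w b` at `(j,l)` (and its conjugate at `(l,j)`) and `e_i ∘ (x ∘ z) = 0`. The `(i,l)` entry of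
`D(x ∘ z) = D x ∘ z + x ∘ D z` is `-(1/2) a_j (w b) = (1/2) (D x)_ik b = -(1/2) (a_j w) b` (the other three
products vanish at `(i,l)`). So `a_j` is in the nucleus: real by NUC. Finally `e_i ∘ e_j = 0` gives
`(D e_i)_ij + (D e_j)_ij = 0`. -/
def S_DER1 : Prop := ∀ (K : Type) [Field K] (n : ℕ), (2 : K) ≠ 0 → 4 ≤ n →
  ∀ D : SymP n K →ₗ[K] SymP n K, IsDerP D →
    ∃ a : Matrix (Fin n) (Fin n) K, aᵀ = -a ∧
      ∀ (i : Fin n) (E : SymP n K), (E : Mat n K) = eu i →
        (D E : Mat n K) = re a * eu i - eu i * re a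

/-- job DER3: a derivation which kills the `e_i` maps real matrices to real matrices. `D` maps the
matrices supported on `{(i,j),(j,i)}` to such matrices (`2 e_i ∘ x = x`, `2 e_j ∘ x = x` are preserved by
`D`), for `i ≠ j`; write `D (w[ij]) = (d_ij w)[ij]`, where `w[ij]` has `w` at `(i,j)` and `star w` at `(j,i)`.
From `w[ij] ∘ b[jk] = (1/2) (w b)[ik]` (`i, j, k` different): `d_ik (w b) = (d_ij w) b + w (d_jk b)`.
Let `c_jk = d_jk 1`. For `i, j, k, l` different (`n ≥ 4`) compute `d_il` of `(w 1) z = w (1 z)` in two ways: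
`d_il ((w 1) z) = (d_ik w) z + w (d_kl z) = (d_ij w + w c_jk) z + w (d_kl z)` and
`d_il (w (1 z)) = (d_ij w) z + w (d_jl z) = (d_ij w) z + w (c_jk z + d_kl z)`, so `(w c_jk) z = w (c_jk z)`:
`c_jk` is real by NUC. So `D` maps `E_jk + E_kj` to a real matrix, and the `E_ii` to `0`. -/
def S_DER3 : Prop := ∀ (K : Type) [Field K] (n : ℕ), (2 : K) ≠ 0 → 4 ≤ n →
  ∀ D : SymP n K →ₗ[K] SymP n K, IsDerP D →
    (∀ (i : Fin n) (E : SymP n K), (E : Mat n K) = eu i → D E = 0) →
    ∀ (s : Matrix (Fin n) (Fin n) K) (X : SymP n K), (X : Mat n K) = re s →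
      ∃ s' : Matrix (Fin n) (Fin n) K, (D X : Mat n K) = re s'

/-- job MOD: a subspace `M` of Hermitian matrices, stable under the derivations of DOP and of dimension
at most that of the symmetric matrices over `K`, consists of real matrices (`n ≥ 4`). Use STAB and SO.
Suppose `X ∈ M` is not real: some entry `X i j` is not a multiple of `1` (`i ≠ j`, since diagonal
entries are real: `star x = x` implies `x ∈ K 1`), so there is a functional `ξ` with `ξ 1 = 0`,
`ξ (X i j) ≠ 0` (one of the coordinates `2..7` or `x 0 - x 1`). `s = (ξ (X i j))_ij` is skew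
(`ξ (star x) = -ξ x` as `star x + x ∈ K 1`), nonzero. By STAB `ten s o ∈ M` for all imaginary `o`. Let
`U` be the set of the skew `u` over `K` with `ten u o ∈ M` for all imaginary `o`; `U ≠ 0`, and
`re a * ten u o - ten u o * re a = ten (a u - u a) o`, so SO applies. If `n ≥ 5` all `ten u o`, `u` skew,
`o` imaginary are in `M`: `7 n(n-1)/2 ≤ dim M ≤ n(n+1)/2`, false. If `n = 4`: `14 ≤ dim M ≤ 10`, false.
(To bound dimensions: `(Fin 7 → U) → M`, `(u_k) ↦ ∑ ten u_k o_k` is injective linear, `o_k` the basis of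
the imaginary octonions; `finrank (SymK n K) ≤ n(n+1)/2` by the injective map to functions on
`{(i,j) | i ≤ j}`; `finrank` of the skew matrices is at least `n(n-1)/2`: functions on `{(i,j) | i < j}`.) -/
def S_MOD : Prop := ∀ (K : Type) [Field K] (n : ℕ), (2 : K) ≠ 0 → 4 ≤ n →
  ∀ M : Submodule K (Mat n K), M ≤ SymP n K →
    Module.finrank K M ≤ Module.finrank K (SymK n K) →
    (∀ d : Oct K →ₗ[K] Oct K, IsDerO d → ∀ X ∈ M, X.map d ∈ M) →
    (∀ a : Matrix (Fin n) (Fin n) K, aᵀ = -a → ∀ X ∈ M, re a * X - X * re a ∈ M) →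
    ∀ X ∈ M, ∃ s ∈ SymK n K, X = re s

/-- job REAL: automorphisms of `Sym⁺` preserve the real matrices (`n ≥ 4`). Use DOP, DER1, DER3, MOD.
(1) Every derivation `D` maps real matrices to real ones: with the skew `a` of DER1 and the inner
derivation `D_a : X ↦ re a * X - X * re a` of DOP, `D - D_a` is a derivation killing the `e_i`, so DER3
applies to it, and `D_a` maps real matrices to real matrices. (2) Let `f` be an automorphism, `M` the
image under `f` of the real Hermitian matrices `{re s}`, a subspace of `Mat n K`,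
`finrank M ≤ finrank (SymK n K)`. For a derivation `D` the map `f⁻¹ D f` is a derivation, so by (1) it maps
`re s` to a real matrix, so `D (f (re s)) ∈ M`. By DOP, `M` satisfies the hypotheses of MOD. -/
def S_REAL : Prop := ∀ (K : Type) [Field K] (n : ℕ), (2 : K) ≠ 0 → 4 ≤ n →
  ∀ f ∈ AutP n K, ∀ X : SymP n K, (∃ s ∈ SymK n K, (X : Mat n K) = re s) →
    ∃ s ∈ SymK n K, (f X : Mat n K) = re s

/-- job FIXP: an automorphism of `Sym⁺` (`n ≥ 3`) which fixes all real matrices is `X ↦ X.map t`.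
With `w[ij]` as in DER3: `2 e_i ∘ x = x`, `2 e_j ∘ x = x` characterise the matrices `w[ij]`, so
`f (w[ij]) = (t_ij w)[ij]` with `t_ij` linear, `t_ij 1 = 1`. From `w[ij] ∘ b[jk] = (1/2) (w b)[ik]` for
different `i, j, k`: `t_ik (w b) = (t_ij w) (t_jk b)`. `b = 1`: `t_ik = t_ij`; `w = 1`: `t_ik = t_jk`; so all
`t_ij` (`i ≠ j`) are equal (`n ≥ 3`; `t_ij = t_ik = t_jk = t_ji` etc.), to a bijective linear map `t` with
`t (w b) = t w * t b`. Every Hermitian matrix is a sum of `r • e_i` and `w[ij]`. -/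
def S_FIXP : Prop := ∀ (K : Type) [Field K] (n : ℕ), (2 : K) ≠ 0 → 3 ≤ n →
  ∀ f ∈ AutP n K, (∀ X : SymP n K, (∃ s ∈ SymK n K, (X : Mat n K) = re s) → f X = X) →
    ∃ t ∈ AutO K, ∀ X : SymP n K, (f X : Mat n K) = (X : Mat n K).map t

/-- job SURP: surjectivity for `Sym⁺`, `n ≥ 4`. Use REAL, JORD, FIXP, HOM. `f` restricted to the real
matrices gives an injective Jordan homomorphism `ψ` of `SymK n K` with `ψ 1 = 1` (`re s ∘ re t =
re ((s t + t s)/2)`, `re` is injective; `f 1 = 1` because `1 ∘ X = X`: `f 1 ∘ f X = f X` for all `X`), so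
`ψ s = g s g⁻¹`, `g` in `GO`. Then `Φ(1,g)⁻¹ f` fixes the real matrices, so it is `X ↦ X.map t` and
`f X = act t g X`. -/
def S_SURP : Prop := ∀ (K : Type) [Field K] (n : ℕ), (2 : K) ≠ 0 → 4 ≤ n →
  ∀ f ∈ AutP n K, ∃ t ∈ AutO K, ∃ g ∈ GO n K, ∀ X : SymP n K,
    (f X : Mat n K) = act t g (X : Mat n K)

/-! ### Skew-Hermitian matrices -/

/-- job NUCM: the real matrices of `Sym⁻` are the elements with vanishing Jacobians (`3 ≠ 0`). If `A` is
real then all products with `A` associate, so `jac A X Y = 0` (the Jacobian is a signed sum of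
associators; entries). Conversely let `A` be skew-Hermitian with `jac A X Y = 0` for all `X, Y`. Take
`X = ten 1 o`, `Y = ten 1 o'`, `o, o'` imaginary: the entry `(i,j)` is the Jacobian
`[[x,o],o'] + [[o,o'],x] + [[o',x],o]` of `x = A i j` in the octonions, which equals `6 (x o) o' - 6 x (o o')`
up to sign (coordinates, or only: insert basis elements). So `x` is in the nucleus: scalar
(NUC or direct). (Any `x` with all these Jacobians zero is a scalar: direct computation with basis
elements and coordinates, the coefficients are multiples of 6 or 12.) Then `A = re a` and `a` is skew. -/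
def S_NUCM : Prop := ∀ (K : Type) [Field K] (n : ℕ), (2 : K) ≠ 0 → (3 : K) ≠ 0 →
  ∀ A ∈ SymM n K, (∀ X ∈ SymM n K, ∀ Y ∈ SymM n K, jac A X Y = 0) ↔
    ∃ a : Matrix (Fin n) (Fin n) K, aᵀ = -a ∧ A = re a

/-- job CENM: the brackets of the elements of `Sym⁻` commuting with all real skew matrices span
`{ten 1 o : o imaginary}` (`n ≥ 1`). Write `X = re b + X'` with `b` skew over `K` and `X'` with imaginary
entries, `X' i j = X' j i` (from `star (X j i) = -X i j`: real parts are skew, imaginary parts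
symmetric). If `X` commutes with `re a` for all skew `a` then for each functional `ξ` with `ξ 1 = 0` the
symmetric matrix `s = (ξ (X i j))` commutes with all skew `a`; with `a = E_ij - E_ji` one gets
`s i j = 0` for `i ≠ j` and `s i i = s j j`: so `X' = ten 1 o`. And `b` commutes with all skew `a`: `b = 0`
for `n ≥ 3`, and for `n = 2` `b = c (E_01 - E_10)` is possible. In all cases for two such
`X = re b + ten 1 o`, `Y = re b' + ten 1 o'` one has `b b' = b' b` and
`br X Y = ten 1 (o o' - o' o)`. (Commuting of `b, b'`: `b'` is skew and `b` commutes with all skew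
matrices.) The commutators `o o' - o' o` of imaginary octonions span the imaginary octonions
(`[e₀-e₁, e₂] = 2 e₂`, ..., `[e₂, e₅] = e₀ - e₁`). -/
def S_CENM : Prop := ∀ (K : Type) [Field K] (n : ℕ), (2 : K) ≠ 0 → 1 ≤ n →
  ∀ Z : Mat n K,
    Z ∈ Submodule.span K {W : Mat n K | ∃ X ∈ SymM n K, ∃ Y ∈ SymM n K,
      (∀ a : Matrix (Fin n) (Fin n) K, aᵀ = -a → br (re a) X = 0) ∧
      (∀ a : Matrix (Fin n) (Fin n) K, aᵀ = -a → br (re a) Y = 0) ∧ br X Y = W} ↔
    ∃ o : Oct K, Im o ∧ Z = ten 1 o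

/-- job FIXM: an automorphism of `Sym⁻` which fixes all `ten 1 o` and preserves the real matrices is
a conjugation (`n ≥ 1`). Use SCH and JORD. For `s` symmetric over `K` and imaginary `o` the element
`F(o,s) = f (ten s o)`: `[ten 1 o', ten s o] = ten s [o',o]`, so `[ten 1 o', F(o,s)] = F([o',o],s)`. The
elements `ten s o` span `{X ∈ Sym⁻ with imaginary entries}` `= [ten 1 Im, Sym⁻]`, which is preserved by
`f`; so the entries of `F(o,s)` are imaginary; for fixed `s, i, j` the map `o ↦ F(o,s)_ij` satisfies the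
hypothesis of SCH (extend it by `0` on `1`), so `F(o,s)_ij = ψ(s)_ij • o`. `ψ(s)` is symmetric, linear in
`s`, `ψ(1) = 1`, injective. For imaginary `o, o'` and symmetric `s, s'`:
`[ten s o, ten s' o'] = ten ((s s' + s' s)/2) [o,o'] - B(o,o') re (s s' - s' s)`, `B` as in MAL. Apply `f`, use
that `f` preserves real matrices, compare the imaginary parts: `ψ((s s' + s' s)/2) = (ψ s ψ s' + ψ s' ψ s)/2`
(choose `o, o'` with `[o,o'] ≠ 0`), and with `o = o'`, `norm o ≠ 0`:
`f (re (s s' - s' s)) = re (ψ s ψ s' - ψ s' ψ s)`. By JORD `ψ s = g s g⁻¹`, so `f (re b) = re (g b g⁻¹)` for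
`b = E_ij - E_ji = s s' - s' s` with `s = E_ii`, `s' = E_ij + E_ji`, hence for all skew `b`. -/
def S_FIXM : Prop := ∀ (K : Type) [Field K] (n : ℕ), (2 : K) ≠ 0 → 1 ≤ n →
  ∀ f ∈ AutM n K, (∀ X : SymM n K, (∃ o : Oct K, Im o ∧ (X : Mat n K) = ten 1 o) → f X = X) →
    (∀ X : SymM n K, (∃ a : Matrix (Fin n) (Fin n) K, aᵀ = -a ∧ (X : Mat n K) = re a) →
      ∃ a : Matrix (Fin n) (Fin n) K, aᵀ = -a ∧ (f X : Mat n K) = re a) →
    ∃ g ∈ GO n K, ∀ X : SymM n K, (f X : Mat n K) = act 1 g (X : Mat n K)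

/-- job SURM: surjectivity for `Sym⁻`, `n ≥ 1`. Use NUCM, CENM, MAL, FIXM, HOM. The condition of NUCM is
preserved by `f` and `f⁻¹`, so `f` maps real matrices onto real matrices; so `f` preserves the set of
CENM, and its span: `f (ten 1 o) = ten 1 (T o)` for imaginary `o`, `T` linear injective, preserving
commutators: by MAL `T = t` on imaginary octonions. `Φ(t,1)⁻¹ f` satisfies the hypotheses of FIXM. -/
def S_SURM : Prop := ∀ (K : Type) [Field K] (n : ℕ), (2 : K) ≠ 0 → (3 : K) ≠ 0 → 1 ≤ n →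
  ∀ f ∈ AutM n K, ∃ t ∈ AutO K, ∃ g ∈ GO n K, ∀ X : SymM n K,
    (f X : Mat n K) = act t g (X : Mat n K)

/-! ### Comparison with `G₂ × SO(n)` -/

/-- job ODD: similitudes in odd dimension. `n = 2m+1`, `gᵀ g = r • 1`, `r ≠ 0`: `det(g)² = r^n`, so with
`ν = det g / r^m` one has `ν² = r`, `h = ν⁻¹ • g` satisfies `hᵀ h = 1`, `det h = ±1`; replace `ν` by `-ν`
if necessary (`n` odd). A scalar matrix `r • 1` with `r² = 1`, `r^n = 1` is `1`. -/
def S_ODD : Prop := ∀ (K : Type) [Field K] (n : ℕ), Odd n →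
  (∀ g ∈ GO n K, ∃ (ν : K) (h : Matrix (Fin n) (Fin n) K), ν ≠ 0 ∧ hᵀ * h = 1 ∧ h.det = 1 ∧
    (g : Matrix (Fin n) (Fin n) K) = ν • h) ∧
  ∀ r : K, (r • (1 : Matrix (Fin n) (Fin n) K))ᵀ * (r • 1) = 1 →
    (r • (1 : Matrix (Fin n) (Fin n) K)).det = 1 → r = 1

/-- job ZP: the centre of the group of similitudes modulo scalars. Let `g h = μ • (h g)` for all `h` in
`GO` (`μ` depending on `h`). For `h = 1 - 2 E_ii` (`h² = 1`): `μ² = 1`; if `μ = -1` then `g h g⁻¹ = -h`, traces
give `n - 2 = -(n - 2)` so `n = 2` in characteristic zero; in general: the ranks of `1 - h` (one) and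
`1 + h` (`n - 1`) are exchanged, so `n = 2`. So for `n ≥ 3` `g` commutes with all `E_ii`: it is diagonal;
with `h` a transposition matrix `(i j)` and `k` fixed by it, `μ g_kk = g_kk` so `μ = 1` and `g_ii = g_jj`. So
`g` is scalar. For `n = 2`: `gᵀ g = r • 1` means `g = [[a,-b],[b,a]]` or `g = [[a,b],[b,-a]]`; in the second
case `g² = (a²+b²) • 1`; in the first case `h = [[1,0],[0,-1]]` gives `g h = μ h g`, so `b = 0` or `a = 0`,
and `g²` is scalar. -/
def S_ZP : Prop := ∀ (K : Type) [Field K] (n : ℕ), (2 : K) ≠ 0 → 2 ≤ n → ∀ g ∈ GO n K,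
  (∀ h ∈ GO n K, ∃ μ : K, (g : Matrix (Fin n) (Fin n) K) * h = μ • ((h : Matrix (Fin n) (Fin n) K) * g)) →
  (3 ≤ n → ∃ r : K, (g : Matrix (Fin n) (Fin n) K) = r • 1) ∧
  ∃ r : K, (g : Matrix (Fin n) (Fin n) K) * g = r • 1

/-- job ONE: `n = 1`: `Sym⁺` is `K` and has only the identity as automorphism (`f 1 = 1` since `f 1` is
idempotent and nonzero, `Sym⁺ = K 1`). -/
def S_ONE : Prop := ∀ (K : Type) [Field K], (2 : K) ≠ 0 → ∀ f ∈ AutP 1 K, f = 1

/-- `det X = X₀₀ X₁₁ - N(X₀₁)` of a Hermitian `2 × 2` matrix -/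
def det2 (X : Mat 2 K) : K := (X 0 0) 0 * (X 1 1) 0 - Oct.norm (X 0 1)

/-- job TWO: `n = 2`: `f` is an automorphism iff `f 1 = 1` and `det2` is preserved. For Hermitian `X`:
`X ∘ X = tr X • X - det2 X • 1` with `tr X = (X 0 0) 0 + (X 1 1) 0`, and
`det2 (X + r • 1) = det2 X + r tr X + r²`. (If `f` is an automorphism: `f 1 = 1`; compare
`f (X ∘ X)` with `f X ∘ f X`: if `f X` is not a multiple of `1` then trace and `det2` agree; otherwise
`X` is the same multiple of `1`.) Conversely `det2` preserved and `f 1 = 1` give `tr` preserved, so squares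
are preserved, polarise (`2 ≠ 0`). The second part: the centre has exponent two. For `v` Hermitian with
`tr v = 0` and `q = -det2 v ≠ 0` (`v ∘ v = q • 1`) the reflection `X ↦ X - (β(X,v)/q) v`, where
`X ∘ v`-type bilinear form: for `tr X = 0`, `X ∘ v = B(X,v) • 1`, `r_v(X) = X - 2 B(X,v)/q • v` and
`r_v(1) = 1`, is an automorphism by the first part; if `f` commutes with it then `f v = c • v`
(`r_v X = -X` iff `X ∈ K v`), `c² = 1` as `v ∘ v = q • 1`. So `f (f v) = v` for all such `v`, and they span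
the matrices of trace zero. -/
def S_TWO : Prop := ∀ (K : Type) [Field K], (2 : K) ≠ 0 →
  (∀ f : SymP 2 K ≃ₗ[K] SymP 2 K, f ∈ AutP 2 K ↔
    (∀ X : SymP 2 K, (X : Mat 2 K) = 1 → f X = X) ∧
      ∀ X : SymP 2 K, det2 (f X : Mat 2 K) = det2 (X : Mat 2 K)) ∧
  ∀ f ∈ AutP 2 K, (∀ h ∈ AutP 2 K, f * h = h * f) → f * f = 1

end Pool.Agent.Q19.HO
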