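import Pool.Agent.Q19.HO.Iso
import Pool.Agent.Q19.HO.SURM

/-!
Project HO: the final statements from the lemmas.
-/

set_option autoImplicit false

namespace Pool.Agent.Q19.HO

open Matrix

variable {K : Type} [Field K] {n : ℕ}

lemma re_scalar (r : K) : (re (r • (1 : Matrix (Fin n) (Fin n) K)) : Mat n K) = r • (1 : Mat n K) := by
  ext i j
  show ((r • (1 : Matrix (Fin n) (Fin n) K)) i j • (1 : Oct K)) = r • ((1 : Mat n K) i j)
  rw [Matrix.smul_apply, smul_assoc]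
  congr 1
  by_cases hij : i = j
  · rw [hij, Matrix.one_apply_eq, Matrix.one_apply_eq, one_smul]
  · rw [Matrix.one_apply_ne hij, Matrix.one_apply_ne hij, zero_smul]

lemma act_scalar (hn : 1 ≤ n) (g : (Matrix (Fin n) (Fin n) K)ˣ) (r : K)
    (hr : (g : Matrix (Fin n) (Fin n) K) = r • 1) (X : Mat n K) : act 1 g X = X := by
  have h1 : (g : Matrix (Fin n) (Fin n) K) * (↑g⁻¹ : Matrix (Fin n) (Fin n) K) = 1 := Units.mul_inv g
  rw [hr, Matrix.smul_mul, Matrix.one_mul] at h1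
  have hr0 : r ≠ 0 := by
    intro h0
    rw [h0, zero_smul] at h1
    have := congrFun (congrFun h1 ⟨0, hn⟩) ⟨0, hn⟩
    rw [Matrix.one_apply_eq] at this
    exact zero_ne_one this
  have h2 : (↑g⁻¹ : Matrix (Fin n) (Fin n) K) = r⁻¹ • 1 := by
    rw [← h1, smul_smul, inv_mul_cancel₀ hr0, one_smul]
  show re (g : Matrix (Fin n) (Fin n) K) * X.map (1 : Oct K ≃ₗ[K] Oct K) *
    re (↑g⁻¹ : Matrix (Fin n) (Fin n) K) = X
  have h3 : X.map (1 : Oct K ≃ₗ[K] Oct K) = X := rfl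
  rw [h3, hr, h2, re_scalar, re_scalar, smul_mul_assoc, one_mul, mul_smul_comm, mul_one, smul_smul,
    inv_mul_cancel₀ hr0, one_smul]

/-- the homomorphism of HOM is surjective with kernel the scalars: Hermitian case -/
theorem topP (hom : S_HOM) (ker : S_KER) (sur : S_SURP) (h20 : (2 : K) ≠ 0)
    (hn : 4 ≤ n) :
    ∃ Φ : (AutO K × GO n K) →* AutP n K,
      (∀ (t : AutO K) (g : GO n K) (X : SymP n K),
        (((Φ (t, g) : AutP n K) : SymP n K ≃ₗ[K] SymP n K) X : Mat n K) =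
          act (t : Oct K ≃ₗ[K] Oct K) (g : (Matrix (Fin n) (Fin n) K)ˣ) X) ∧
      Function.Surjective Φ ∧
      ∀ (t : AutO K) (g : GO n K), Φ (t, g) = 1 ↔ t = 1 ∧ ∃ r : K,
        ((g : (Matrix (Fin n) (Fin n) K)ˣ) : Matrix (Fin n) (Fin n) K) = r • 1 := by
  obtain ⟨⟨Φ, hΦ⟩, -⟩ := hom K n h20
  refine ⟨Φ, hΦ, ?_, ?_⟩
  · rintro ⟨f, hf⟩
    obtain ⟨t, ht, g, hg, hX⟩ := sur K n h20 hn f hf
    refine ⟨(⟨t, ht⟩, ⟨g, hg⟩), ?_⟩
    apply Subtype.ext
    apply LinearEquiv.ext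
    intro X
    apply Subtype.ext
    rw [hΦ]
    exact (hX X).symm
  · intro t g
    constructor
    · intro h
      have h1 : ∀ X ∈ SymP n K, act (t : Oct K ≃ₗ[K] Oct K) (g : (Matrix (Fin n) (Fin n) K)ˣ) X = X := by
        intro X hX
        have h2 := hΦ t g ⟨X, hX⟩
        rw [h] at h2
        exact h2.symm
      obtain ⟨h3, h4⟩ := (ker K n h20 t t.2 g).1 (by omega) h1
      exact ⟨Subtype.ext h3, h4⟩
    · rintro ⟨rfl, r, hr⟩
      apply Subtype.ext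
      apply LinearEquiv.ext
      intro X
      apply Subtype.ext
      rw [hΦ]
      exact act_scalar (by omega) _ r hr X

/-- the homomorphism of HOM is surjective with kernel the scalars: skew-Hermitian case -/
theorem topM (hom : S_HOM) (ker : S_KER) (sur : S_SURM) (h20 : (2 : K) ≠ 0) (h30 : (3 : K) ≠ 0)
    (hn : 1 ≤ n) :
    ∃ Φ : (AutO K × GO n K) →* AutM n K,
      (∀ (t : AutO K) (g : GO n K) (X : SymM n K),
        (((Φ (t, g) : AutM n K) : SymM n K ≃ₗ[K] SymM n K) X : Mat n K) =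
          act (t : Oct K ≃ₗ[K] Oct K) (g : (Matrix (Fin n) (Fin n) K)ˣ) X) ∧
      Function.Surjective Φ ∧
      ∀ (t : AutO K) (g : GO n K), Φ (t, g) = 1 ↔ t = 1 ∧ ∃ r : K,
        ((g : (Matrix (Fin n) (Fin n) K)ˣ) : Matrix (Fin n) (Fin n) K) = r • 1 := by
  obtain ⟨-, Φ, hΦ⟩ := hom K n h20
  refine ⟨Φ, hΦ, ?_, ?_⟩
  · rintro ⟨f, hf⟩
    obtain ⟨t, ht, g, hg, hX⟩ := sur K n h20 h30 hn f hf
    refine ⟨(⟨t, ht⟩, ⟨g, hg⟩), ?_⟩
    apply Subtype.ext
    apply LinearEquiv.ext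
    intro X
    apply Subtype.ext
    rw [hΦ]
    exact (hX X).symm
  · intro t g
    constructor
    · intro h
      have h1 : ∀ X ∈ SymM n K, act (t : Oct K ≃ₗ[K] Oct K) (g : (Matrix (Fin n) (Fin n) K)ˣ) X = X := by
        intro X hX
        have h2 := hΦ t g ⟨X, hX⟩
        rw [h] at h2
        exact h2.symm
      obtain ⟨h3, h4⟩ := (ker K n h20 t t.2 g).2 hn h1
      exact ⟨Subtype.ext h3, h4⟩
    · rintro ⟨rfl, r, hr⟩
      apply Subtype.ext
      apply LinearEquiv.ext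
      intro X
      apply Subtype.ext
      rw [hΦ]
      exact act_scalar hn _ r hr X

/-- `n = 1`, Hermitian matrices -/
lemma one_no (one : S_ONE) (hzo : S_ZO) (h20 : (2 : K) ≠ 0) : IsEmpty (AutP 1 K ≃* AutO K × SO 1 K) := by
  refine ⟨fun e => ?_⟩
  obtain ⟨t, ht, ht1⟩ := (hzo K h20).2
  have h1 : e.symm (⟨t, ht⟩, 1) = 1 := Subtype.ext (one K h20 _ (e.symm (⟨t, ht⟩, 1)).2)
  have h2 : ((⟨t, ht⟩, 1) : AutO K × SO 1 K) = 1 := by
    rw [← e.apply_symm_apply (⟨t, ht⟩, 1), h1, map_one]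
  exact ht1 (congrArg Subtype.val (Prod.ext_iff.1 h2).1)

/-- `n = 2`, Hermitian matrices -/
lemma two_noP (two : S_TWO) (h20 : (2 : K) ≠ 0) : IsEmpty (AutP 2 K ≃* AutO K × SO 2 K) := by
  apply two_no h20
  intro z hz
  apply Subtype.ext
  exact (two K h20).2 z.1 z.2 fun h hh => congrArg Subtype.val (hz ⟨h, hh⟩)

end Pool.Agent.Q19.HO
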